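import Mathlib

set_option autoImplicit false
set_option linter.unusedSectionVars false

/-!
Bernstein partitions of the Cantor space and an abstract Lindelof lemma.
-/

namespace Pool.Agent.H87CL

open Cardinal Set

/-- Cantor space. -/
abbrev Q : Type := ℕ → Bool

theorem mk_Q : #Q = 𝔠 := by
  simp [Q, ← two_power_aleph0]

instance polishQ : PolishSpace (ℕ → Bool) := { }

/-- injective choice from large sets. -/
theorem exists_injective_choice {A B : Type} (F : A → Set B) (h : ∀ a, #A ≤ #(F a)) :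
    ∃ x : A → B, Function.Injective x ∧ ∀ a, x a ∈ F a := by
  classical
  obtain ⟨hlo, hwf, hord⟩ := exists_ord_eq_type_lt A
  have key : ∀ (a : A) (f : ∀ b : A, b < a → B), ∃ y, y ∈ F a ∧ ∀ b (hb : b < a), f b hb ≠ y := by
    intro a f
    by_contra hcon
    push Not at hcon
    have h1 : F a ⊆ range (fun b : Iio a => f b.1 b.2) := by
      intro y hy
      obtain ⟨b, hb, hby⟩ := hcon y hy
      exact ⟨⟨b, hb⟩, hby⟩
    have h2 : #(F a) ≤ #(Iio a) := (mk_le_mk_of_subset h1).trans mk_range_le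
    have h3 : #(Iio a) < #A := mk_Iio_lt a hord
    exact absurd ((h a).trans h2) (not_le.2 h3)
  choose g hg using key
  let x : A → B := WellFounded.fix (C := fun _ => B) (wellFounded_lt (α := A)) (fun a f => g a f)
  have hx : ∀ a, x a = g a (fun b _ => x b) := fun a => WellFounded.fix_eq _ _ _
  refine ⟨x, ?_, fun a => ?_⟩
  · have hne : ∀ a b, b < a → x b ≠ x a := by
      intro a b hab
      rw [hx a]
      exact (hg a (fun b _ => x b)).2 b hab
    intro a b hab
    rcases lt_trichotomy a b with h | h | h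
    · exact absurd hab (hne b a h)
    · exact h
    · exact absurd hab.symm (hne a b h)
  · rw [hx a]
    exact (hg a (fun b _ => x b)).1

theorem mk_closed_le : #{K : Set Q // IsClosed K} ≤ 𝔠 := by
  classical
  obtain ⟨b, hbc, -, hb⟩ := TopologicalSpace.exists_countable_basis Q
  have : Function.Injective (fun K : {K : Set Q // IsClosed K} =>
      ({s : b | (s : Set Q) ⊆ K.1ᶜ} : Set b)) := by
    intro K L hKL
    apply Subtype.ext
    have h1 : ∀ (K : {K : Set Q // IsClosed K}), K.1ᶜ = ⋃₀ {s ∈ b | s ⊆ K.1ᶜ} :=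
      fun K => hb.open_eq_sUnion' K.2.isOpen_compl
    have h2 : K.1ᶜ = L.1ᶜ := by
      rw [h1 K, h1 L]
      congr 1
      ext s
      constructor
      · rintro ⟨hs, hs'⟩
        have : (⟨s, hs⟩ : b) ∈ ({s : b | (s : Set Q) ⊆ L.1ᶜ} : Set b) := by
          have hKL' : ({s : b | (s : Set Q) ⊆ K.1ᶜ} : Set b) = {s : b | (s : Set Q) ⊆ L.1ᶜ} := hKL
          rw [← hKL']
          exact hs'
        exact ⟨hs, this⟩
      · rintro ⟨hs, hs'⟩
        have : (⟨s, hs⟩ : b) ∈ ({s : b | (s : Set Q) ⊆ K.1ᶜ} : Set b) := by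
          have hKL' : ({s : b | (s : Set Q) ⊆ K.1ᶜ} : Set b) = {s : b | (s : Set Q) ⊆ L.1ᶜ} := hKL
          rw [hKL']
          exact hs'
        exact ⟨hs, this⟩
    exact compl_injective h2
  refine (mk_le_of_injective this).trans ?_
  rw [mk_set, ← two_power_aleph0]
  have : Countable b := hbc.to_subtype
  exact power_le_power_left (by norm_num) mk_le_aleph0

theorem mk_uncountable_closed {K : Set Q} (hK : IsClosed K) (hK' : ¬ K.Countable) : 𝔠 ≤ #K := by
  obtain ⟨f, hf, -, hfi⟩ := hK.exists_nat_bool_injection_of_not_countable hK'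
  rw [← mk_Q]
  exact mk_le_of_injective (f := fun x : Q => (⟨f x, hf ⟨x, rfl⟩⟩ : K))
    (fun a b hab => hfi (congrArg Subtype.val hab))

/-- Bernstein partition. -/
theorem bernstein (T : Type) [Nonempty T] (hT : #T ≤ 𝔠) :
    ∃ ι : Q → T, ∀ (t : T) (K : Set Q), IsClosed K → ¬ K.Countable → ∃ x ∈ K, ι x = t := by
  classical
  let A : Type := {K : Set Q // IsClosed K ∧ ¬ K.Countable} × T
  have hA : #A ≤ 𝔠 := by
    have h1 : #{K : Set Q // IsClosed K ∧ ¬ K.Countable} ≤ #{K : Set Q // IsClosed K} :=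
      mk_le_of_injective (f := fun K => ⟨K.1, K.2.1⟩)
        (fun a b hab => Subtype.ext (by simpa using hab))
    show #({K : Set Q // IsClosed K ∧ ¬ K.Countable} × T) ≤ 𝔠
    rw [mk_prod, lift_id, lift_id]
    exact (mul_le_mul' (h1.trans mk_closed_le) hT).trans (by rw [mul_eq_self aleph0_le_continuum])
  obtain ⟨x, hxi, hx⟩ := exists_injective_choice (A := A) (fun a => a.1.1)
    (fun a => hA.trans (mk_uncountable_closed a.1.2.1 a.1.2.2))
  obtain ⟨t0⟩ := ‹Nonempty T›
  refine ⟨Function.extend x (fun a => a.2) (fun _ => t0), fun t K hK hK' => ?_⟩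
  refine ⟨x (⟨K, hK, hK'⟩, t), hx (⟨K, hK, hK'⟩, t), ?_⟩
  rw [hxi.extend_apply]

/-- initial segments of elements of the Cantor space. -/
def pre (x : Q) (n : ℕ) : List Bool := List.ofFn (fun i : Fin n => x i)

@[simp] theorem length_pre (x : Q) (n : ℕ) : (pre x n).length = n := by simp [pre]

theorem pre_eq_iff {x y : Q} {n : ℕ} : pre x n = pre y n ↔ ∀ i < n, x i = y i := by
  constructor
  · intro h i hi
    have := List.ofFn_injective h
    exact congrFun this ⟨i, hi⟩
  · intro h
    unfold pre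
    congr 1
    ext i
    exact h i i.2

theorem isOpen_pre (x : Q) (n : ℕ) : IsOpen {y : Q | pre y n = pre x n} := by
  have : {y : Q | pre y n = pre x n} = ⋂ i ∈ Finset.range n, {y : Q | y i = x i} := by
    ext y
    simp [pre_eq_iff]
  rw [this]
  refine isOpen_biInter_finset fun i _ => ?_
  exact (isOpen_discrete ({x i} : Set Bool)).preimage
    (continuous_apply i : Continuous (fun y : ℕ → Bool => y i))

theorem exists_pre_ne {x y : Q} (h : x ≠ y) : ∃ n, ∀ m, n ≤ m → pre x m ≠ pre y m := by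
  obtain ⟨i, hi⟩ := Function.ne_iff.1 h
  exact ⟨i + 1, fun m hm hp => hi (pre_eq_iff.1 hp i (by omega))⟩

/-- The abstract Lindelof lemma. -/
theorem lindelof_aux {J : Type} (T : Set J) (W : Q → Finset J) (B : Set Q)
    (hWT : ∀ x, ∀ u ∈ W x, u ∈ T)
    (hW : ∀ (E : Finset J), (∀ u ∈ E, u ∈ T) → ∀ K : Set Q, IsClosed K → ¬ K.Countable →
      ∃ x ∈ K, x ∉ B ∧ W x = E)
    (V : Q → Set Q) (hV0 : ∀ x, x ∈ V x)
    (hV : ∀ x, x ∉ B → ∃ (G : Finset J) (j : ℕ), ∀ x', (∀ u ∈ G, (u ∈ W x' ↔ u ∈ W x)) →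
      pre x' j = pre x j → x' ∈ V x) :
    ∃ D : Set Q, D.Countable ∧ ∀ x, ∃ d ∈ D, x ∈ V d := by
  classical
  have main : ∀ (m N : ℕ) (E : Finset J), (∀ u ∈ E, u ∈ T) → E.card + m = N →
      ∃ D : Set Q, D.Countable ∧ ∀ x, E ⊆ W x → (W x).card ≤ N → ∃ d ∈ D, x ∈ V d := by
    intro m
    induction m with
    | zero =>
      intro N E hE hEN
      choose! G j hGj using hV
      -- the points whose trace is exactly E
      let CE : Set Q := {x | x ∉ B ∧ W x = E}
      -- countably many of them suffice to cover CE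
      have hLin : ∃ D1 : Set Q, D1.Countable ∧ D1 ⊆ CE ∧
          CE ⊆ ⋃ x ∈ D1, {y : Q | pre y (j x) = pre x (j x)} := by
        have hL : IsLindelof CE := HereditarilyLindelofSpace.isLindelof CE
        obtain ⟨t, ht, htc, hcov⟩ := hL.elim_nhds_subcover
          (fun x => {y : Q | pre y (j x) = pre x (j x)})
          (fun x _ => (isOpen_pre x (j x)).mem_nhds rfl)
        exact ⟨t, ht, htc, hcov⟩
      obtain ⟨D1, hD1c, hD1s, hD1cov⟩ := hLin
      let O : Set Q := ⋃ x ∈ D1, {y : Q | pre y (j x) = pre x (j x)}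
      have hO : IsOpen O := isOpen_biUnion fun x _ => isOpen_pre x (j x)
      have hOc : (Oᶜ).Countable := by
        by_contra hnc
        obtain ⟨x, hx, hxB, hxE⟩ := hW E hE Oᶜ hO.isClosed_compl hnc
        exact hx (hD1cov ⟨hxB, hxE⟩)
      refine ⟨D1 ∪ Oᶜ, hD1c.union hOc, fun x hEx hxN => ?_⟩
      by_cases hxO : x ∈ O
      · obtain ⟨d, hd, hxd⟩ := mem_iUnion₂.1 hxO
        refine ⟨d, Or.inl hd, hGj d (hD1s hd).1 x (fun u _ => ?_) hxd⟩
        have hWx : W x = E := by
          refine (Finset.eq_of_subset_of_card_le hEx ?_).symm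
          omega
        rw [hWx, (hD1s hd).2]
      · exact ⟨x, Or.inr hxO, hV0 x⟩
    | succ m ih =>
      intro N E hE hEN
      choose! G j hGj using hV
      let CE : Set Q := {x | x ∉ B ∧ W x = E}
      have hLin : ∃ D1 : Set Q, D1.Countable ∧ D1 ⊆ CE ∧
          CE ⊆ ⋃ x ∈ D1, {y : Q | pre y (j x) = pre x (j x)} := by
        have hL : IsLindelof CE := HereditarilyLindelofSpace.isLindelof CE
        obtain ⟨t, ht, htc, hcov⟩ := hL.elim_nhds_subcover
          (fun x => {y : Q | pre y (j x) = pre x (j x)})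
          (fun x _ => (isOpen_pre x (j x)).mem_nhds rfl)
        exact ⟨t, ht, htc, hcov⟩
      obtain ⟨D1, hD1c, hD1s, hD1cov⟩ := hLin
      let O : Set Q := ⋃ x ∈ D1, {y : Q | pre y (j x) = pre x (j x)}
      have hO : IsOpen O := isOpen_biUnion fun x _ => isOpen_pre x (j x)
      have hOc : (Oᶜ).Countable := by
        by_contra hnc
        obtain ⟨x, hx, hxB, hxE⟩ := hW E hE Oᶜ hO.isClosed_compl hnc
        exact hx (hD1cov ⟨hxB, hxE⟩)
      -- the exceptional names
      let GG : Set J := {g | g ∈ T ∧ g ∉ E ∧ ∃ d ∈ D1, g ∈ G d}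
      have hGG : GG.Countable := by
        refine Set.Countable.mono (s₂ := ⋃ d ∈ D1, (G d : Set J)) ?_ ?_
        · rintro g ⟨-, -, d, hd, hg⟩
          exact mem_iUnion₂.2 ⟨d, hd, hg⟩
        · exact hD1c.biUnion fun d _ => (G d).countable_toSet
      have ih' : ∀ g : J, g ∈ GG → ∃ D : Set Q, D.Countable ∧
          ∀ x, insert g E ⊆ W x → (W x).card ≤ N → ∃ d ∈ D, x ∈ V d := by
        intro g hg
        refine ih N (insert g E) ?_ ?_
        · intro u hu
          rcases Finset.mem_insert.1 hu with rfl | hu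
          · exact hg.1
          · exact hE u hu
        · rw [Finset.card_insert_of_notMem hg.2.1]
          omega
      choose! DD hDDc hDD using ih'
      refine ⟨D1 ∪ Oᶜ ∪ ⋃ g ∈ GG, DD g, (hD1c.union hOc).union (hGG.biUnion hDDc),
        fun x hEx hxN => ?_⟩
      by_cases hxO : x ∈ O
      · obtain ⟨d, hd, hxd⟩ := mem_iUnion₂.1 hxO
        by_cases hag : ∀ u ∈ G d, (u ∈ W x ↔ u ∈ W d)
        · exact ⟨d, Or.inl (Or.inl hd), hGj d (hD1s hd).1 x hag hxd⟩
        · push Not at hag
          obtain ⟨u, hu, hu'⟩ := hag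
          rw [(hD1s hd).2] at hu'
          have hu'' : u ∈ W x ∧ u ∉ E := by
            rcases hu' with h | h
            · exact h
            · exact absurd (hEx h.2) h.1
          have hg : u ∈ GG := ⟨hWT x u hu''.1, hu''.2, d, hd, hu⟩
          obtain ⟨d', hd', hxd'⟩ := hDD u hg x (by
            intro w hw
            rcases Finset.mem_insert.1 hw with rfl | hw
            · exact hu''.1
            · exact hEx hw) hxN
          exact ⟨d', Or.inr (mem_iUnion₂.2 ⟨u, hg, hd'⟩), hxd'⟩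
      · exact ⟨x, Or.inl (Or.inr hxO), hV0 x⟩
  choose D hDc hD using fun N : ℕ => main N N ∅ (by simp) (by simp)
  refine ⟨⋃ N, D N, countable_iUnion hDc, fun x => ?_⟩
  obtain ⟨d, hd, hxd⟩ := hD (W x).card x (Finset.empty_subset _) le_rfl
  exact ⟨d, mem_iUnion.2 ⟨_, hd⟩, hxd⟩

end Pool.Agent.H87CL
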