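import Mathlib

set_option autoImplicit false
set_option linter.unusedSectionVars false

/-!
Order-type walks on a well-ordered set all of whose initial segments have at most continuum many
elements, and the resulting strong unboundedness property.
-/

namespace Pool.Agent.H87CL

open Cardinal Set

section Walk

variable {I : Type} [LinearOrder I] [WellFoundedLT I]

/-- `z` minimises `j b` on the interval `[x, b)`. -/
def IsStep (j : I → I → Ordinal.{0}) (b x z : I) : Prop :=
  x ≤ z ∧ z < b ∧ ∀ w, x ≤ w → w < b → j b z ≤ j b w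

/-- the sets of points reached from `b` in at most `n` steps. -/
def Reach (j : I → I → Ordinal.{0}) : ℕ → I → Set I
  | 0, _ => ∅
  | n + 1, b => {x | ∃ z, IsStep j b x z ∧ (z = x ∨ x ∈ Reach j n z)}

theorem exists_isStep (j : I → I → Ordinal.{0}) {b x : I} (h : x < b) :
    ∃ z, IsStep j b x z := by
  obtain ⟨z, hz, hmin⟩ := WellFounded.has_min (r := fun u v : I => j b u < j b v)
    (InvImage.wf (j b) wellFounded_lt) {w | x ≤ w ∧ w < b} ⟨x, le_rfl, h⟩
  exact ⟨z, hz.1, hz.2, fun w h1 h2 => not_lt.1 (hmin w ⟨h1, h2⟩)⟩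

theorem isStep_unique {j : I → I → Ordinal.{0}} {b x z z' : I}
    (hj : InjOn (j b) (Iio b)) (h : IsStep j b x z) (h' : IsStep j b x z') : z = z' :=
  hj h.2.1 h'.2.1 (le_antisymm (h.2.2 z' h'.1 h'.2.1) (h'.2.2 z h.1 h.2.1))

theorem Reach_lt {j : I → I → Ordinal.{0}} {n : ℕ} {b x : I} (h : x ∈ Reach j n b) : x < b := by
  cases n with
  | zero => exact absurd h (by simp [Reach])
  | succ n =>
    obtain ⟨z, hz, -⟩ := h
    exact hz.1.trans_lt hz.2.1

theorem Reach_succ {j : I → I → Ordinal.{0}} {n : ℕ} {b x : I} (h : x ∈ Reach j n b) :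
    x ∈ Reach j (n + 1) b := by
  induction n generalizing b with
  | zero => exact absurd h (by simp [Reach])
  | succ n ih =>
    obtain ⟨z, hz, h'⟩ := h
    exact ⟨z, hz, h'.imp_right ih⟩

theorem Reach_mono {j : I → I → Ordinal.{0}} {n m : ℕ} (hnm : n ≤ m) {b x : I}
    (h : x ∈ Reach j n b) : x ∈ Reach j m b := by
  induction m, hnm using Nat.le_induction with
  | base => exact h
  | succ m _ ih => exact Reach_succ ih

theorem exists_Reach (j : I → I → Ordinal.{0}) {b x : I} (h : x < b) :
    ∃ n, x ∈ Reach j n b := by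
  induction b using WellFoundedLT.induction with
  | ind b ih =>
    obtain ⟨z, hz⟩ := exists_isStep j h
    rcases hz.1.eq_or_lt with rfl | hlt
    · exact ⟨1, x, hz, Or.inl rfl⟩
    · obtain ⟨n, hn⟩ := ih z hz.2.1 hlt
      exact ⟨n + 1, z, hz, Or.inr hn⟩

/-- The sets `Reach j n b` have a uniformly bounded order type. -/
theorem Reach_slow {j : I → I → Ordinal.{0}} (hj : ∀ b, InjOn (j b) (Iio b))
    (hj' : ∀ b x, x < b → j b x < (𝔠 : Cardinal.{0}).ord) (n : ℕ) :
    ∃ ν : Ordinal.{0}, ν.card ≤ 𝔠 ∧ ∀ b, ∃ G : I → Ordinal.{0}, Monotone G ∧ (∀ x, G x ≤ ν) ∧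
      ∀ x y, x < y → y ∈ Reach j n b → G x < G y := by
  induction n with
  | zero =>
    exact ⟨0, by simp, fun b => ⟨fun _ => 0, fun _ _ _ => le_rfl, fun _ => le_rfl,
      fun x y _ h => absurd h (by simp [Reach])⟩⟩
  | succ n ih =>
    obtain ⟨ν, hν, hG⟩ := ih
    choose G hGm hGle hGs using hG
    have hc : (ν + 2).card ≤ 𝔠 := by
      rw [Ordinal.card_add]
      refine (add_le_add hν ?_).trans (by rw [add_eq_self aleph0_le_continuum])
      exact (by simpa using (nat_lt_continuum 2).le)
    refine ⟨(ν + 2) * (𝔠 : Cardinal.{0}).ord, ?_, fun b => ?_⟩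
    · rw [Ordinal.card_mul, card_ord]
      exact (mul_le_mul' hc le_rfl).trans (by rw [mul_eq_self aleph0_le_continuum])
    classical
    choose st hst using fun (x : I) (h : x < b) => exists_isStep j (b := b) (x := x) h
    have hlt2 : ∀ o : Ordinal.{0}, o ≤ ν + 1 → o < ν + 2 := by
      intro o ho
      refine ho.trans_lt ?_
      exact add_lt_add_right (by norm_num) ν
    have hfin : ∀ z x, (if x = z then ν + 1 else G z x) ≤ ν + 1 := by
      intro z x
      split_ifs with h
      · exact le_rfl
      · exact (hGle z x).trans (by simp)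
    let G' : I → Ordinal.{0} := fun x =>
      if h : x < b then (ν + 2) * (j b (st x h)) + (if x = st x h then ν + 1 else G (st x h) x)
      else (ν + 2) * (𝔠 : Cardinal.{0}).ord
    have hval : ∀ (x : I) (h : x < b), G' x =
        (ν + 2) * (j b (st x h)) + (if x = st x h then ν + 1 else G (st x h) x) :=
      fun x h => dif_pos h
    have hval' : ∀ (x : I), ¬ x < b → G' x = (ν + 2) * (𝔠 : Cardinal.{0}).ord :=
      fun x h => dif_neg h
    have hup : ∀ (x : I) (h : x < b), G' x < (ν + 2) * (j b (st x h) + 1) := by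
      intro x h
      rw [hval x h, mul_add, mul_one]
      exact add_lt_add_right (hlt2 _ (hfin _ _)) _
    have hup' : ∀ (x : I) (h : x < b), G' x < (ν + 2) * (𝔠 : Cardinal.{0}).ord := by
      intro x h
      refine (hup x h).trans_le (mul_le_mul_right ?_ _)
      have := hj' b _ (hst x h).2.1
      exact Order.add_one_le_of_lt this
    have hkey : ∀ (x y : I) (hx : x < b) (hy : y < b), x ≤ y →
        st x hx = st y hy ∨ G' x < G' y := by
      intro x y hx hy hxy
      by_cases hxs : y ≤ st x hx
      · left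
        refine isStep_unique (hj b) (x := y) ⟨hxs, (hst x hx).2.1, fun w hw hw' => ?_⟩ (hst y hy)
        exact (hst x hx).2.2 w (hxy.trans hw) hw'
      · right
        rw [not_le] at hxs
        have h1 : j b (st x hx) < j b (st y hy) := by
          refine lt_of_le_of_ne ((hst x hx).2.2 _ (hxy.trans (hst y hy).1) (hst y hy).2.1) ?_
          intro h
          have := hj b (hst x hx).2.1 (hst y hy).2.1 h
          rw [this] at hxs
          exact absurd (hst y hy).1 (not_le.2 hxs)
        refine (hup x hx).trans_le ?_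
        refine (mul_le_mul_right (Order.add_one_le_of_lt h1) _).trans ?_
        rw [hval y hy]
        exact le_self_add
    refine ⟨G', ?_, ?_, ?_⟩
    · intro x y hxy
      by_cases hy : y < b
      · have hx : x < b := hxy.trans_lt hy
        rcases hkey x y hx hy hxy with h | h
        · rw [hval x hx, hval y hy, h]
          gcongr
          by_cases hys : y = st y hy
          · rw [if_pos hys]
            exact hfin _ _
          · have hxs : x ≠ st y hy := by
              intro hxs
              have := (hst y hy).1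
              exact hys (le_antisymm this (hxs ▸ hxy))
            rw [if_neg hys, if_neg hxs]
            exact hGm _ hxy
        · exact h.le
      · rw [hval' y hy]
        by_cases hx : x < b
        · exact (hup' x hx).le
        · rw [hval' x hx]
    · intro x
      by_cases hx : x < b
      · exact (hup' x hx).le
      · rw [hval' x hx]
    · intro x y hxy hyR
      have hy : y < b := Reach_lt hyR
      have hx : x < b := hxy.trans hy
      rcases hkey x y hx hy hxy.le with h | h
      · rw [hval x hx, hval y hy, h]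
        refine add_lt_add_right ?_ _
        have hxs : x ≠ st y hy := by
          intro hxs
          have := (hst y hy).1
          exact absurd (this.trans hxs.symm.le) (not_le.2 hxy)
        rw [if_neg hxs]
        by_cases hys : y = st y hy
        · rw [if_pos hys]
          exact (hGle _ _).trans_lt (by simp)
        · rw [if_neg hys]
          obtain ⟨z, hz, hz'⟩ := hyR
          have hzz : z = st y hy := isStep_unique (hj b) hz (hst y hy)
          subst hzz
          rcases hz' with h' | h'
          · exact absurd h'.symm hys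
          · exact hGs _ _ _ hxy h'
      · exact h

/-- Iteration lemma. -/
theorem exists_iterate
    (hb : ∀ (κ : Type) (f : κ → I), #κ ≤ 𝔠 → ∃ b, ∀ k, f k < b) (M : I → I)
    (o : Ordinal.{0}) (ho : o.card ≤ 𝔠) :
    ∃ d : I, ∀ d', d < d' → ∀ F : I → Ordinal.{0}, Monotone F →
      (∀ x, M x < d' → F x < F (M x)) → o ≤ F d := by
  induction o using WellFoundedLT.induction with
  | ind o ih =>
    have ih' : ∀ p : Iio o, ∃ d : I, ∀ d', d < d' → ∀ F : I → Ordinal.{0}, Monotone F →
        (∀ x, M x < d' → F x < F (M x)) → (p : Ordinal.{0}) ≤ F d := fun p =>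
      ih p p.2 ((Ordinal.card_le_card (le_of_lt p.2)).trans ho)
    choose d hd using ih'
    obtain ⟨b, hbb⟩ := hb o.ToType (fun k => max (d (Ordinal.ToType.mk.symm k))
      (M (d (Ordinal.ToType.mk.symm k)))) (by rw [mk_toType]; exact ho)
    refine ⟨b, fun d' hd' F hF hM => ?_⟩
    refine le_of_forall_lt fun p hp => ?_
    have h1 := hbb (Ordinal.ToType.mk ⟨p, hp⟩)
    rw [OrderIso.symm_apply_apply] at h1
    have h2 := hd ⟨p, hp⟩ d' (((le_max_left _ _).trans_lt h1).trans hd') F hF hM
    have h3 : M (d ⟨p, hp⟩) < b := (le_max_right _ _).trans_lt h1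
    calc p ≤ F (d ⟨p, hp⟩) := h2
      _ < F (M (d ⟨p, hp⟩)) := hM _ (h3.trans hd')
      _ ≤ F b := hF h3.le

/-- Strong unboundedness. -/
theorem strong_unbounded {j : I → I → Ordinal.{0}} (hj : ∀ b, InjOn (j b) (Iio b))
    (hj' : ∀ b x, x < b → j b x < (𝔠 : Cardinal.{0}).ord)
    (hb : ∀ (κ : Type) (f : κ → I), #κ ≤ 𝔠 → ∃ b, ∀ k, f k < b)
    (n m : ℕ) (M : I → I) :
    ∃ d : I, ∀ β : Fin m → I, (∀ i, d ≤ β i) →
      ∃ x, M x < d ∧ ∀ y, x < y → y ≤ M x → ∀ i, y ∉ Reach j n (β i) := by
  classical
  obtain ⟨ν, hν, hG⟩ := Reach_slow hj hj' n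
  choose G hGm hGle hGs using hG
  let V : Type := (Order.succ ν).ToType
  have hVc : #V ≤ 𝔠 := by
    show #(Order.succ ν).ToType ≤ 𝔠
    rw [mk_toType, Order.succ_eq_add_one, Ordinal.card_add]
    refine (add_le_add hν ?_).trans (by rw [add_eq_self aleph0_le_continuum])
    simpa using (nat_lt_continuum 1).le
  let T : Type := Fin m → V
  have hTc : #T ≤ 𝔠 := by
    show #(Fin m → V) ≤ 𝔠
    rw [mk_pi]
    simp only [prod_const, mk_fin, lift_id]
    exact (power_le_power_right hVc).trans (by
      rcases Nat.eq_zero_or_pos m with rfl | hm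
      · simpa using (nat_lt_continuum 1).le
      · exact (power_nat_eq (by exact aleph0_le_continuum) hm).le)
  let v : I → I → V := fun b x => Ordinal.ToType.mk ⟨G b x, Order.lt_succ_of_le (hGle b x)⟩
  have hvm : ∀ b, Monotone (v b) := fun b x y hxy =>
    Ordinal.ToType.mk.monotone (Subtype.mk_le_mk.2 (hGm b hxy))
  have hvs : ∀ b x y, x < y → y ∈ Reach j n b → v b x < v b y := fun b x y hxy hy =>
    Ordinal.ToType.mk.strictMono (Subtype.mk_lt_mk.2 (hGs b x y hxy hy))
  let rk : T → Ordinal.{0} := IsWellFounded.rank (α := T) (· < ·)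
  have hrk : StrictMono rk := WellFoundedLT.rank_strictMono
  let top : T := fun _ => Ordinal.ToType.mk ⟨ν, Order.lt_succ ν⟩
  have htop : ∀ t : T, t ≤ top := by
    intro t i
    have h : (Ordinal.ToType.mk.symm (t i) : Iio (Order.succ ν)) ≤ ⟨ν, Order.lt_succ ν⟩ :=
      Subtype.mk_le_mk.2 (Order.lt_succ_iff.1 (Ordinal.ToType.mk.symm (t i)).2)
    have := Ordinal.ToType.mk.monotone h
    rwa [OrderIso.apply_symm_apply] at this
  have hotop : (rk top).card ≤ 𝔠 := by
    have : #(rk top).ToType ≤ #T := by
      have hex : ∀ k : (rk top).ToType, ∃ t : T, rk t = (Ordinal.ToType.mk.symm k : Iio (rk top)) :=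
        fun k => IsWellFounded.mem_range_rank_of_le (r := (· < · : T → T → Prop))
          (le_of_lt (Ordinal.ToType.mk.symm k).2)
      choose t ht using hex
      refine mk_le_of_injective (f := t) fun a b hab => ?_
      have : (Ordinal.ToType.mk.symm a : Iio (rk top)) = Ordinal.ToType.mk.symm b := by
        apply Subtype.ext
        rw [← ht a, ← ht b, hab]
      exact Ordinal.ToType.mk.symm.injective this
    rw [mk_toType] at this
    exact this.trans hTc
  have ho : (rk top + 1).card ≤ 𝔠 := by
    rw [Ordinal.card_add]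
    refine (add_le_add hotop ?_).trans (by rw [add_eq_self aleph0_le_continuum])
    simpa using (nat_lt_continuum 1).le
  obtain ⟨d, hd⟩ := exists_iterate hb M (rk top + 1) ho
  obtain ⟨d', hdd'⟩ := hb Unit (fun _ => d) (by simpa using (nat_lt_continuum 1).le)
  have hdd' : d < d' := hdd' ()
  refine ⟨d', fun β hβ => ?_⟩
  by_contra hcon
  push Not at hcon
  have h := hd d' hdd' (fun x => rk (fun i => v (β i) x)) (fun x y hxy =>
    hrk.monotone (fun i => hvm (β i) hxy)) (fun x hx => ?_)
  · have h2 : rk (fun i => v (β i) d) ≤ rk top := hrk.monotone (htop _)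
    exact absurd (h.trans h2) (not_le.2 (by simp))
  · obtain ⟨y, hxy, hyM, i, hi⟩ := hcon x hx
    refine lt_of_lt_of_le (hrk ?_) (hrk.monotone (fun i => hvm (β i) hyM))
    refine Pi.lt_def.2 ⟨fun i' => hvm _ hxy.le, i, hvs _ _ _ hxy hi⟩

end Walk

end Pool.Agent.H87CL
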