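import Mathlib
import Pool.Agent.H87CL.Walk
import Pool.Agent.H87CL.Bern

set_option autoImplicit false
set_option linter.unusedSectionVars false

/-!
The generators, their finite transitive closures and the arrow relations.
-/

namespace Pool.Agent.H87CL

open Cardinal Set

/-- points: a height, a level and an element of the Cantor space. -/
@[ext] structure Pt (I : Type) where
  ht : I
  lv : ℕ
  rl : Q

/-- names of the subbasic clopen sets. -/
@[ext] structure Nm (I : Type) where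
  ht : I
  lv : ℕ
  st : List Bool

/-- the data used in the construction. -/
structure Setup (I : Type) [LinearOrder I] [WellFoundedLT I] where
  g : I → I → ℕ
  S : I → Q → Finset (Pt I)
  isB : Q → Prop
  W : I → Q → Finset (Nm I)
  hS : ∀ b x, ∀ p ∈ S b x, p.ht < b ∧ isB p.rl
  hSs : ∀ b (F : Finset (Pt I)), (∀ p ∈ F, p.ht < b ∧ isB p.rl) → ∃ x, isB x ∧ S b x = F
  hW : ∀ b x, ∀ U ∈ W b x, U.ht < b
  hWs : ∀ b (E : Finset (Nm I)), (∀ U ∈ E, U.ht < b) → ∀ K : Set Q, IsClosed K → ¬ K.Countable →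
    ∃ x ∈ K, ¬ isB x ∧ W b x = E
  SU : ∀ (n m : ℕ) (M : I → I), ∃ d : I, ∀ β : Fin m → I, (∀ i, d ≤ β i) →
    ∃ x, M x < d ∧ ∀ y, x < y → y ≤ M x → ∀ i, n < g (β i) y
  bdd : ∀ (κ : Type) (f : κ → I), #κ ≤ 𝔠 → ∃ b, ∀ k, f k < b
  hIio : ∀ b : I, #(Iio b) ≤ 𝔠

section Gen

variable {I : Type} [LinearOrder I] [WellFoundedLT I] (D : Setup I)

/-- direct membership in the support. -/
def Dir (a b : Pt I) : Prop := a ∈ D.S b.ht b.rl

/-- transitive closure. -/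
def C (b : Pt I) : Set (Pt I) := {a | Relation.ReflTransGen (Dir D) a b}

/-- the distance function. -/
def f (a b : Pt I) : ℕ :=
  if a.ht < b.ht then D.g b.ht a.ht + b.lv + 1
  else if b.ht < a.ht then D.g a.ht b.ht + a.lv + 1 else 0

variable {D}

theorem C_self (b : Pt I) : b ∈ C D b := Relation.ReflTransGen.refl

theorem C_trans {a b c : Pt I} (h : c ∈ C D a) (h' : a ∈ C D b) : c ∈ C D b :=
  Relation.ReflTransGen.trans h h'

theorem C_cases {a b : Pt I} (h : a ∈ C D b) : a = b ∨ ∃ c, Dir D c b ∧ a ∈ C D c := by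
  rcases Relation.ReflTransGen.cases_tail h with h | ⟨c, hc, hcb⟩
  · exact Or.inl h.symm
  · exact Or.inr ⟨c, hcb, hc⟩

theorem C_ht {a b : Pt I} (h : a ∈ C D b) : a = b ∨ a.ht < b.ht := by
  induction h with
  | refl => exact Or.inl rfl
  | tail _ hcb ih =>
    right
    have h1 := (D.hS _ _ _ hcb).1
    rcases ih with rfl | ih
    · exact h1
    · exact ih.trans h1

theorem C_le {a b : Pt I} (h : a ∈ C D b) : a.ht ≤ b.ht := by
  rcases C_ht h with rfl | h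
  · exact le_rfl
  · exact h.le

theorem C_B {a b : Pt I} (h : a ∈ C D b) (hb : D.isB b.rl) : D.isB a.rl := by
  rcases Relation.ReflTransGen.cases_head h with h | ⟨c, hac, -⟩
  · exact h ▸ hb
  · exact (D.hS _ _ _ hac).2

theorem C_finite (b : Pt I) : (C D b).Finite := by
  have key : ∀ (h : I) (b : Pt I), b.ht = h → (C D b).Finite := by
    intro h
    induction h using WellFoundedLT.induction with
    | ind h ih =>
      intro b hb
      have : C D b ⊆ insert b (⋃ c ∈ D.S b.ht b.rl, C D c) := by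
        intro a ha
        rcases C_cases ha with rfl | ⟨c, hc, hac⟩
        · exact mem_insert _ _
        · exact mem_insert_of_mem _ (mem_iUnion₂.2 ⟨c, hc, hac⟩)
      refine Set.Finite.subset (Set.Finite.insert _ ?_) this
      refine Set.Finite.biUnion (D.S b.ht b.rl).finite_toSet fun c hc => ?_
      exact ih c.ht (hb ▸ (D.hS _ _ _ hc).1) c rfl
  exact key _ b rfl

theorem C_eq {b : Pt I} (h : ∀ a ∈ D.S b.ht b.rl, ∀ c ∈ C D a, c ∈ D.S b.ht b.rl) (a : Pt I) :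
    a ∈ C D b ↔ a = b ∨ a ∈ D.S b.ht b.rl := by
  constructor
  · intro ha
    rcases C_cases ha with ha | ⟨c, hc, hac⟩
    · exact Or.inl ha
    · exact Or.inr (h c hc a hac)
  · rintro (rfl | ha)
    · exact C_self _
    · exact Relation.ReflTransGen.single ha

theorem f_comm (a b : Pt I) : f D a b = f D b a := by
  unfold f
  rcases lt_trichotomy a.ht b.ht with h | h | h
  · rw [if_pos h, if_neg (not_lt.2 h.le), if_pos h]
  · simp [h]
  · rw [if_neg (not_lt.2 h.le), if_pos h, if_pos h]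

theorem f_of_lt {a b : Pt I} (h : b.ht < a.ht) : f D a b = D.g a.ht b.ht + a.lv + 1 := by
  unfold f
  rw [if_neg (not_lt.2 h.le), if_pos h]

theorem f_of_eq {a b : Pt I} (h : a.ht = b.ht) : f D a b = 0 := by
  unfold f
  simp [h]

theorem f_congr {a b a' b' : Pt I} (h1 : a.ht = a'.ht) (h2 : a.lv = a'.lv) (h3 : b.ht = b'.ht)
    (h4 : b.lv = b'.lv) : f D a b = f D a' b' := by
  unfold f
  rw [h1, h2, h3, h4]

variable (D)

/-- the arrow relation: `x` is in the `n`-th neighbourhood of `a`. -/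
def Arr (n : ℕ) (a x : Pt I) : Prop :=
  a ∈ C D x ∧ ∀ η ∈ C D x, η ∉ C D a → ∃ ξ ∈ C D a, ∀ ζ ∈ C D a, f D η ζ ≤ n →
    ζ.ht < ξ.ht ∧ f D η ζ = f D ξ ζ

variable {D}

theorem Arr_refl (n : ℕ) (a : Pt I) : Arr D n a a :=
  ⟨C_self a, fun _ h h' => absurd h h'⟩

theorem Arr_anti {n m : ℕ} {a x : Pt I} (hnm : n ≤ m) (h : Arr D m a x) : Arr D n a x := by
  refine ⟨h.1, fun η hη hη' => ?_⟩
  obtain ⟨ξ, hξ, hξ'⟩ := h.2 η hη hη'
  exact ⟨ξ, hξ, fun ζ hζ hle => hξ' ζ hζ (hle.trans hnm)⟩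

theorem K1 {n : ℕ} {a x η : Pt I} (h : Arr D n a x) (hη : η ∈ C D x) (hη' : η ∉ C D a) :
    n < f D η a := by
  by_contra hcon
  obtain ⟨ξ, hξ, hξ'⟩ := h.2 η hη hη'
  have := (hξ' a (C_self a) (not_lt.1 hcon)).1
  exact absurd (C_le hξ) (not_le.2 this)

theorem K2 {m : ℕ} {a a1 x : Pt I} (h1 : a1 ∈ C D a) (h : Arr D m a1 x) (h2 : a ∈ C D x) :
    Arr D m a1 a :=
  ⟨h1, fun η hη hη' => h.2 η (C_trans hη h2) hη'⟩

theorem R1 {n m : ℕ} {a a' a'' : Pt I} (h : Arr D n a a') (h' : Arr D m a' a'') (hnm : n ≤ m) :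
    Arr D n a a'' := by
  refine ⟨C_trans h.1 h'.1, fun η hη hηa => ?_⟩
  by_cases hηa' : η ∈ C D a'
  · exact h.2 η hηa' hηa
  · obtain ⟨ζ0, hζ0, hζ0'⟩ := h'.2 η hη hηa'
    by_cases hz : ζ0 ∈ C D a
    · exact ⟨ζ0, hz, fun ζ hζ hle => hζ0' ζ (C_trans hζ h.1) (hle.trans hnm)⟩
    · obtain ⟨ξ0, hξ0, hξ0'⟩ := h.2 ζ0 hζ0 hz
      refine ⟨ξ0, hξ0, fun ζ hζ hle => ?_⟩
      obtain ⟨h1, h2⟩ := hζ0' ζ (C_trans hζ h.1) (hle.trans hnm)
      obtain ⟨h3, h4⟩ := hξ0' ζ hζ (h2 ▸ hle)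
      exact ⟨h3, h2.trans h4⟩

/-- two different points whose neighbourhoods of index `n` meet are at distance more than `n`. -/
theorem sep {n : ℕ} {a a' x : Pt I} (h : Arr D n a x) (h' : Arr D n a' x) (hne : a ≠ a') :
    n < f D a a' := by
  have key : ∀ {b b' : Pt I}, Arr D n b x → Arr D n b' x → b ≠ b' → b'.ht ≤ b.ht →
      n < f D b b' := by
    intro b b' hb hb' hbb' hle
    refine K1 hb' hb.1 fun hmem => ?_
    rcases C_ht hmem with h1 | h1
    · exact hbb' h1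
    · exact absurd hle (not_le.2 h1)
  rcases le_total a'.ht a.ht with hle | hle
  · exact key h h' hne hle
  · rw [f_comm]
    exact key h' h (Ne.symm hne) hle

variable (D)

/-- the generator part of a subbasic set. -/
def N (U : Nm I) : Set (Pt I) :=
  {x | ∃ b, D.isB b ∧ pre b U.st.length = U.st ∧ Arr D U.st.length ⟨U.ht, U.lv, b⟩ x}

/-- membership in the subbasic set with name `U`. -/
def mem (U : Nm I) (p : Pt I) : Prop :=
  (D.isB p.rl ∧ p ∈ N D U) ∨ (¬ D.isB p.rl ∧ ((U.ht < p.ht ∧ U ∈ D.W p.ht p.rl) ∨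
    (U.ht = p.ht ∧ U.lv = p.lv ∧ pre p.rl U.st.length = U.st)))

variable {D}

theorem mem_B {U : Nm I} {p : Pt I} (h : D.isB p.rl) : mem D U p ↔ p ∈ N D U := by
  simp [mem, h]

theorem mem_nB {U : Nm I} {p : Pt I} (h : ¬ D.isB p.rl) : mem D U p ↔
    ((U.ht < p.ht ∧ U ∈ D.W p.ht p.rl) ∨
    (U.ht = p.ht ∧ U.lv = p.lv ∧ pre p.rl U.st.length = U.st)) := by
  simp [mem, h]

theorem N_pos {U : Nm I} {p : Pt I} (h : p ∈ N D U) {n : ℕ} (hn : U.st.length ≤ n) {x : Pt I}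
    (hx : Arr D n p x) : x ∈ N D U := by
  obtain ⟨b, hb, hb', hb''⟩ := h
  exact ⟨b, hb, hb', R1 hb'' hx hn⟩

theorem N_neg {U : Nm I} {p : Pt I} (h : p ∉ N D U) {n : ℕ}
    (hn : f D ⟨U.ht, U.lv, p.rl⟩ p ≤ n) {x : Pt I}
    (hx : Arr D n p x) : x ∉ N D U := by
  rintro ⟨b, hb, hb', hb''⟩
  by_cases hmem : (⟨U.ht, U.lv, b⟩ : Pt I) ∈ C D p
  · exact h ⟨b, hb, hb', K2 hmem hb'' hx.1⟩
  · have := K1 hx hb''.1 hmem
    have h2 : f D ⟨U.ht, U.lv, b⟩ p = f D ⟨U.ht, U.lv, p.rl⟩ p := f_congr rfl rfl rfl rfl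
    omega

/-- Each point `p` of height `b` lies in only finitely many sets with names of smaller height. -/
theorem N_finite (p : Pt I) : {U : Nm I | U.ht < p.ht ∧ p ∈ N D U}.Finite := by
  have : {U : Nm I | U.ht < p.ht ∧ p ∈ N D U} ⊆
      ⋃ a ∈ C D p, ⋃ i ∈ Iio (f D p a), {(⟨a.ht, a.lv, pre a.rl i⟩ : Nm I)} := by
    rintro U ⟨hU, b, hb, hb', hb''⟩
    refine mem_iUnion₂.2 ⟨_, hb''.1, mem_iUnion₂.2 ⟨U.st.length, ?_, ?_⟩⟩
    · refine K1 hb'' (C_self p) fun hmem => ?_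
      exact absurd (C_le hmem) (not_le.2 hU)
    · rw [mem_singleton_iff]
      ext1
      · rfl
      · rfl
      · exact hb'.symm
  refine Set.Finite.subset ?_ this
  refine (C_finite p).biUnion fun a _ => ?_
  exact (finite_Iio _).biUnion fun i _ => finite_singleton _

/-- For a generator `p`, for large `n` the only set of the `n`-th cover containing `p`
is the obvious one. -/
theorem N_star (p : Pt I) : ∃ n0, ∀ U : Nm I, n0 ≤ U.st.length → p ∈ N D U →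
    U = ⟨p.ht, p.lv, pre p.rl U.st.length⟩ := by
  classical
  obtain ⟨n0, hn0⟩ : ∃ n0, ∀ a ∈ C D p, f D p a ≤ n0 := by
    refine ⟨(C_finite (D := D) p).toFinset.sup (fun a => f D p a), fun a ha => ?_⟩
    exact Finset.le_sup (f := fun a => f D p a) ((C_finite p).mem_toFinset.2 ha)
  refine ⟨n0, fun U hU hp => ?_⟩
  obtain ⟨b, hb, hb', hb''⟩ := hp
  have hpb : p ∈ C D ⟨U.ht, U.lv, b⟩ := by
    by_contra hmem
    have h1 := K1 hb'' (C_self p) hmem
    have h2 := hn0 _ hb''.1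
    omega
  have hEq : (⟨U.ht, U.lv, b⟩ : Pt I) = p := by
    rcases C_ht hb''.1 with h | h
    · exact h
    · exact absurd (C_le hpb) (not_le.2 h)
  rw [← hEq]
  ext1
  · rfl
  · rfl
  · exact hb'.symm

/-- catching point. -/
theorem catch_pt {a : Pt I} (ha : D.isB a.rl) {β : I} (hβ : a.ht < β) (n : ℕ) :
    ∃ x, D.isB x ∧ Arr D n a ⟨β, n, x⟩ := by
  classical
  obtain ⟨x, hx, hxS⟩ := D.hSs β (C_finite a : (C D a).Finite).toFinset (by
    intro p hp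
    rw [Set.Finite.mem_toFinset] at hp
    exact ⟨(C_le hp).trans_lt hβ, C_B hp ha⟩)
  have hC : ∀ c, c ∈ C D (⟨β, n, x⟩ : Pt I) ↔ c = ⟨β, n, x⟩ ∨ c ∈ C D a := by
    intro c
    rw [C_eq]
    · rw [hxS, Set.Finite.mem_toFinset]
    · intro a' ha' c' hc'
      rw [hxS, Set.Finite.mem_toFinset] at ha' ⊢
      exact C_trans hc' ha'
  refine ⟨x, hx, (hC a).2 (Or.inr (C_self a)), fun η hη hη' => ?_⟩
  rcases (hC η).1 hη with rfl | h
  · refine ⟨a, C_self a, fun ζ hζ hle => ?_⟩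
    rw [f_of_lt (show ζ.ht < β from (C_le hζ).trans_lt hβ)] at hle
    simp only at hle
    omega
  · exact absurd h hη'

/-- amalgamation. -/
theorem amalgam {n : ℕ} {a a' z : Pt I} {R : Set (Pt I)}
    (hz : ∀ c, c ∈ C D z ↔ c = z ∨ c ∈ C D a ∨ c ∈ C D a')
    (hzf : ∀ ζ ∈ C D a, n < f D z ζ)
    (hR' : R ⊆ C D a)
    (hcross : ∀ ζ ∈ C D a, ζ ∉ R → ∀ η ∈ C D a', η ∉ R → n < f D η ζ)
    (htype : ∀ η ∈ C D a', η ∉ R → ∃ ξ ∈ C D a, ξ ∉ R ∧ ∀ ζ ∈ R, f D η ζ = f D ξ ζ)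
    (hlow : ∀ ζ ∈ R, ∀ ξ ∈ C D a, ξ ∉ R → ζ.ht < ξ.ht) :
    Arr D n a z := by
  refine ⟨(hz a).2 (Or.inr (Or.inl (C_self a))), fun η hη hη' => ?_⟩
  rcases (hz η).1 hη with rfl | h | h
  · exact ⟨a, C_self a, fun ζ hζ hle => absurd (hzf ζ hζ) (not_lt.2 hle)⟩
  · exact absurd h hη'
  · have hηR : η ∉ R := fun hR => hη' (hR' hR)
    obtain ⟨ξ, hξ, hξR, hξ'⟩ := htype η h hηR
    refine ⟨ξ, hξ, fun ζ hζ hle => ?_⟩
    have hζR : ζ ∈ R := by
      by_contra hζR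
      exact absurd (hcross ζ hζ hζR η h hηR) (not_lt.2 hle)
    exact ⟨hlow ζ hζR ξ hξ hξR, hξ' ζ hζR⟩

end Gen

end Pool.Agent.H87CL
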