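import Mathlib
import Pool.Agent.H87CL.Gen

set_option autoImplicit false
set_option linter.unusedSectionVars false

/-!
Chain condition: an unbounded set of generators contains two compatible ones.
-/

namespace Pool.Agent.H87CL

open Cardinal Set

theorem mk_finset_le_c {α : Type} (h : #α ≤ 𝔠) : #(Finset α) ≤ 𝔠 := by
  classical
  have h1 : #(Finset α) ≤ #(List α) := mk_le_of_surjective (f := List.toFinset) (fun s =>
    ⟨s.toList, by simp⟩)
  exact h1.trans ((mk_list_le_max α).trans (max_le aleph0_le_continuum h))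

section Root

variable {I : Type} [LinearOrder I] [WellFoundedLT I]

theorem mk_pt_lt (hIio : ∀ b : I, #(Iio b) ≤ 𝔠) (P : Pt I → Prop) (δ : I) :
    #{p : Pt I // p.ht < δ ∧ P p} ≤ 𝔠 := by
  have h1 : #{p : Pt I // p.ht < δ ∧ P p} ≤ #(Iio δ × ℕ × Q) :=
    mk_le_of_injective (f := fun p => (⟨p.1.ht, p.2.1⟩, p.1.lv, p.1.rl)) (by
      intro p q h
      simp only [Prod.mk.injEq] at h
      apply Subtype.ext
      ext1
      exacts [congrArg Subtype.val h.1, h.2.1, h.2.2])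
  refine h1.trans ?_
  rw [mk_prod, mk_prod]
  simp only [lift_id, mk_Q, mk_nat]
  refine (mul_le_mul' (hIio δ) (mul_le_mul' aleph0_le_continuum le_rfl)).trans ?_
  rw [mul_eq_self aleph0_le_continuum, mul_eq_self aleph0_le_continuum]

variable {D : Setup I}

open Classical in
variable (D) in
/-- the type of a point over a finite root. -/
def Ty (R : Finset (Pt I)) (a : Pt I) : Set (Pt I → ℕ) :=
  {h | ∃ ξ ∈ C D a, ξ ∉ R ∧ h = fun ζ => if ζ ∈ R then f D ξ ζ else 0}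

theorem Ty_finite (R : Finset (Pt I)) (a : Pt I) : (Ty D R a).Finite := by
  classical
  refine Set.Finite.subset ((C_finite (D := D) a).image
    (fun ξ => fun ζ => if ζ ∈ R then f D ξ ζ else 0)) ?_
  rintro h ⟨ξ, hξ, -, rfl⟩
  exact ⟨ξ, hξ, rfl⟩

theorem countable_types (R : Finset (Pt I)) :
    {T : Set (Pt I → ℕ) | T.Finite ∧ T ⊆ {h | ∀ ζ, ζ ∉ R → h ζ = 0}}.Countable := by
  refine Set.countable_ofPred_finite_subset ?_
  have : Function.Injective (fun h : {h : Pt I → ℕ | ∀ ζ, ζ ∉ R → h ζ = 0} =>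
      fun ζ : R => h.1 ζ.1) := by
    intro h h' hh
    apply Subtype.ext
    funext ζ
    by_cases hζ : ζ ∈ R
    · exact congrFun hh ⟨ζ, hζ⟩
    · rw [h.2 ζ hζ, h'.2 ζ hζ]
  exact this.countable

theorem root (A : Set (Pt I)) (hunb : ∀ d, ∃ a ∈ A, d ≤ a.ht) :
    ∃ (δ0 : I) (R : Finset (Pt I)) (T0 : Set (Pt I → ℕ)) (m : ℕ), (∀ p ∈ R, p.ht < δ0) ∧
      ∀ δ, δ0 ≤ δ → ∃ a ∈ A, δ ≤ a.ht ∧ (∀ p, (p ∈ C D a ∧ p.ht < δ) ↔ p ∈ R) ∧
        Ty D R a = T0 ∧ (C D a).ncard = m := by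
  classical
  by_contra hcon
  have hcon' : ∀ (δ0 : I) (R : Finset (Pt I)) (T0 : Set (Pt I → ℕ)) (m : ℕ),
      (∀ p ∈ R, p.ht < δ0) → ∃ δ, δ0 ≤ δ ∧ ∀ a ∈ A, δ ≤ a.ht →
        (∀ p, (p ∈ C D a ∧ p.ht < δ) ↔ p ∈ R) → Ty D R a = T0 → (C D a).ncard ≠ m := by
    intro δ0 R T0 m hR
    by_contra h
    push Not at h
    exact hcon ⟨δ0, R, T0, m, hR, fun δ hδ => by
      obtain ⟨a, h1, h2, h3, h4, h5⟩ := h δ hδ
      exact ⟨a, h1, h2, h3, h4, h5⟩⟩
  obtain ⟨i0, -⟩ := D.bdd Empty (fun e => e.elim) (by simp)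
  have : Nonempty I := ⟨i0⟩
  choose! Dl hDl using hcon'
  -- the bounding function
  have hE1 : ∀ (δ0 : I) (R : Finset (Pt I)), ∃ e : I, δ0 < e ∧
      ∀ (T0 : Set (Pt I → ℕ)) (m : ℕ), T0.Finite → (∀ h ∈ T0, ∀ ζ, ζ ∉ R → h ζ = 0) →
        Dl δ0 R T0 m < e := by
    intro δ0 R
    have hc := countable_types (I := I) R
    let κ : Type := Option ({T : Set (Pt I → ℕ) | T.Finite ∧
      T ⊆ {h | ∀ ζ, ζ ∉ R → h ζ = 0}} × ℕ)
    have : Countable {T : Set (Pt I → ℕ) | T.Finite ∧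
      T ⊆ {h | ∀ ζ, ζ ∉ R → h ζ = 0}} := hc.to_subtype
    obtain ⟨e, he⟩ := D.bdd κ (fun o => o.elim δ0 (fun q => Dl δ0 R q.1.1 q.2))
      ((mk_le_aleph0 (α := κ)).trans aleph0_le_continuum)
    exact ⟨e, he none, fun T0 m h1 h2 => he (some (⟨T0, h1, fun h hh => h2 h hh⟩, m))⟩
  choose E1 hE1a hE1b using hE1
  have hE : ∀ δ0 : I, ∃ e : I, δ0 < e ∧ ∀ R : Finset (Pt I), (∀ p ∈ R, p.ht < δ0) →
      E1 δ0 R < e := by
    intro δ0
    let κ : Type := Option (Finset {p : Pt I // p.ht < δ0 ∧ True})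
    have hκ : #κ ≤ 𝔠 := by
      show #(Option (Finset {p : Pt I // p.ht < δ0 ∧ True})) ≤ 𝔠
      rw [mk_option]
      exact (add_le_add (mk_finset_le_c (mk_pt_lt D.hIio _ δ0))
        (by simpa using (nat_lt_continuum 1).le)).trans (by rw [add_eq_self aleph0_le_continuum])
    obtain ⟨e, he⟩ := D.bdd κ (fun o => o.elim δ0 (fun F => E1 δ0 (F.image Subtype.val))) hκ
    refine ⟨e, he none, fun R hR => ?_⟩
    have h1 := he (some (R.subtype (fun p => p.ht < δ0 ∧ True)))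
    have h2 : (R.subtype (fun p => p.ht < δ0 ∧ True)).image Subtype.val = R := by
      ext p
      simp only [Finset.mem_image, Finset.mem_subtype, Subtype.exists, exists_and_right,
        exists_eq_right]
      constructor
      · rintro ⟨-, h⟩
        exact h
      · intro h
        exact ⟨⟨hR p h, trivial⟩, h⟩
    simp only [Option.elim_some, h2] at h1
    exact h1
  choose E hEa hEb using hE
  let dn : ℕ → I := fun n => Nat.rec (motive := fun _ => I) i0 (fun _ d => E d) n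
  have hdn : ∀ n, dn (n + 1) = E (dn n) := fun n => rfl
  have hdm : Monotone dn := monotone_nat_of_le_succ fun n => by
    rw [hdn]
    exact (hEa _).le
  obtain ⟨dω, hdω⟩ := D.bdd ℕ dn (by simpa using aleph0_le_continuum)
  obtain ⟨a, haA, hada⟩ := hunb dω
  have hN : ∃ N, ∀ p ∈ C D a, (∃ n, p.ht < dn n) → p.ht < dn N := by
    have hk : ∀ p : Pt I, ∃ k, (∃ n, p.ht < dn n) → p.ht < dn k := by
      intro p
      by_cases h : ∃ n, p.ht < dn n
      · obtain ⟨k, hk⟩ := h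
        exact ⟨k, fun _ => hk⟩
      · exact ⟨0, fun h' => absurd h' h⟩
    choose k hk using hk
    refine ⟨(C_finite (D := D) a).toFinset.sup k, fun p hp hpn => ?_⟩
    have h1 : p.ht < dn (k p) := hk p hpn
    exact h1.trans_le (hdm (Finset.le_sup (f := k) ((C_finite a).mem_toFinset.2 hp)))
  obtain ⟨N, hN⟩ := hN
  let R : Finset (Pt I) := (C_finite (D := D) a).toFinset.filter (fun p => p.ht < dn N)
  have hRm : ∀ p, p ∈ R ↔ p ∈ C D a ∧ p.ht < dn N := by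
    intro p
    simp [R]
  have hRl : ∀ p ∈ R, p.ht < dn N := fun p hp => ((hRm p).1 hp).2
  obtain ⟨h1, h2⟩ := hDl (dn N) R (Ty D R a) (C D a).ncard hRl
  have h3 : Dl (dn N) R (Ty D R a) (C D a).ncard < dn (N + 1) := by
    rw [hdn]
    refine lt_trans ?_ (hEb (dn N) R hRl)
    refine hE1b _ _ _ _ (Ty_finite R a) ?_
    rintro h ⟨ξ, -, -, rfl⟩ ζ hζ
    simp [hζ]
  refine h2 a haA ((h3.trans (hdω (N + 1))).le.trans hada) (fun p => ?_) rfl rfl
  rw [hRm]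
  constructor
  · rintro ⟨hp, hp'⟩
    exact ⟨hp, hN p hp ⟨N + 1, hp'.trans h3⟩⟩
  · rintro ⟨hp, hp'⟩
    exact ⟨hp, hp'.trans_le h1⟩

/-- the chain condition. -/
theorem compat (A : Set (Pt I)) (hA : ∀ a ∈ A, D.isB a.rl) (hunb : ∀ d, ∃ a ∈ A, d ≤ a.ht)
    (n : ℕ) : ∃ a ∈ A, ∃ a' ∈ A, a ≠ a' ∧ ∃ z, D.isB z.rl ∧ Arr D n a z ∧ Arr D n a' z := by
  classical
  obtain ⟨δ0, R, T0, m, hRδ, hδ⟩ := root (D := D) A hunb
  have : Nonempty (Pt I) := ⟨⟨δ0, 0, fun _ => false⟩⟩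
  choose! α hαA hαht hαR hαT hαm using hδ
  -- a strictly larger element above `δ0`
  have hnx : ∀ x : I, ∃ y, x < y ∧ δ0 < y := by
    intro x
    obtain ⟨b, hb⟩ := D.bdd Bool (fun t => if t then x else δ0)
      (by simpa using (nat_lt_continuum 2).le)
    exact ⟨b, by simpa using hb true, by simpa using hb false⟩
  choose nx hnx1 hnx2 using hnx
  obtain ⟨d, hd⟩ := D.SU n m (fun x => (α (nx x)).ht)
  let d1 := max d δ0
  have hd1 : δ0 ≤ d1 := le_max_right _ _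
  -- the top element and its heights
  have hRC : ∀ δ, δ0 ≤ δ → ∀ p ∈ R, p ∈ C D (α δ) := fun δ hδ p hp => ((hαR δ hδ p).2 hp).1
  have hout : ∀ δ, δ0 ≤ δ → ∀ p ∈ C D (α δ), p ∉ R → δ ≤ p.ht := by
    intro δ hδ p hp hpR
    by_contra hlt
    exact hpR ((hαR δ hδ p).1 ⟨hp, not_le.1 hlt⟩)
  have hcard := hαm d1 hd1
  rw [Set.ncard_eq_toFinset_card _ (C_finite (D := D) (α d1))] at hcard
  let e := (C_finite (D := D) (α d1)).toFinset.equivFinOfCardEq hcard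
  obtain ⟨x, hx, hx'⟩ := hd (fun i => max (e.symm i).1.ht d1) (fun i =>
    (le_max_left _ _).trans (le_max_right _ _))
  have hnxδ : δ0 ≤ nx x := (hnx2 x).le
  refine ⟨α (nx x), hαA _ hnxδ, α d1, hαA _ hd1, ?_, ?_⟩
  · intro h
    rw [h] at hx
    exact absurd ((le_max_left d δ0).trans (hαht d1 hd1)) (not_le.2 hx)
  -- cross distances
  have hcrossht : ∀ ζ ∈ C D (α (nx x)), ζ ∉ R → ∀ η ∈ C D (α d1), η ∉ R →
      ζ.ht < η.ht ∧ n < f D η ζ := by
    intro ζ hζ hζR η hη hηR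
    have h1 : x < ζ.ht := (hnx1 x).trans_le (hout _ hnxδ ζ hζ hζR)
    have h2 : ζ.ht ≤ (α (nx x)).ht := C_le hζ
    have h3 : d1 ≤ η.ht := hout _ hd1 η hη hηR
    have h4 : ζ.ht < η.ht := (h2.trans_lt hx).trans_le ((le_max_left _ _).trans h3)
    refine ⟨h4, ?_⟩
    have h5 := hx' ζ.ht h1 h2 (e ⟨η, by rwa [Set.Finite.mem_toFinset]⟩)
    simp only [Equiv.symm_apply_apply, max_eq_left h3] at h5
    rw [f_of_lt h4]
    omega
  -- the amalgam
  obtain ⟨γ, hγ⟩ := D.bdd Bool (fun t => if t then (α (nx x)).ht else (α d1).ht)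
      (by simpa using (nat_lt_continuum 2).le)
  have hγ1 : (α (nx x)).ht < γ := by simpa using hγ true
  have hγ2 : (α d1).ht < γ := by simpa using hγ false
  obtain ⟨z, hz, hzS⟩ := D.hSs γ ((C_finite (D := D) (α (nx x))).toFinset ∪
      (C_finite (D := D) (α d1)).toFinset) (by
    intro p hp
    rw [Finset.mem_union, Set.Finite.mem_toFinset, Set.Finite.mem_toFinset] at hp
    rcases hp with hp | hp
    · exact ⟨(C_le hp).trans_lt hγ1, C_B hp (hA _ (hαA _ hnxδ))⟩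
    · exact ⟨(C_le hp).trans_lt hγ2, C_B hp (hA _ (hαA _ hd1))⟩)
  have hCz : ∀ c, c ∈ C D (⟨γ, n, z⟩ : Pt I) ↔ c = ⟨γ, n, z⟩ ∨ c ∈ C D (α (nx x)) ∨
      c ∈ C D (α d1) := by
    intro c
    rw [C_eq]
    · rw [hzS, Finset.mem_union, Set.Finite.mem_toFinset, Set.Finite.mem_toFinset]
    · intro a' ha' c' hc'
      rw [hzS, Finset.mem_union, Set.Finite.mem_toFinset, Set.Finite.mem_toFinset] at ha' ⊢
      exact ha'.imp (C_trans hc') (C_trans hc')
  have htype : ∀ δ δ', δ0 ≤ δ → δ0 ≤ δ' → ∀ η ∈ C D (α δ'), η ∉ R →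
      ∃ ξ ∈ C D (α δ), ξ ∉ R ∧ ∀ ζ ∈ R, f D η ζ = f D ξ ζ := by
    intro δ δ' h1 h2 η hη hηR
    have h3 : (fun ζ => if ζ ∈ R then f D η ζ else 0) ∈ Ty D R (α δ') := ⟨η, hη, hηR, rfl⟩
    rw [hαT δ' h2, ← hαT δ h1] at h3
    obtain ⟨ξ, hξ, hξR, hξ'⟩ := h3
    refine ⟨ξ, hξ, hξR, fun ζ hζ => ?_⟩
    have := congrFun hξ' ζ
    simpa [hζ] using this
  have hlow : ∀ δ, δ0 ≤ δ → ∀ ζ ∈ R, ∀ ξ ∈ C D (α δ), ξ ∉ R → ζ.ht < ξ.ht := by
    intro δ h1 ζ hζ ξ hξ hξR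
    exact (hRδ ζ hζ).trans_le (h1.trans (hout δ h1 ξ hξ hξR))
  refine ⟨⟨γ, n, z⟩, hz, ?_, ?_⟩
  · refine amalgam (R := (R : Set (Pt I))) (a' := α d1) hCz ?_ (fun p hp => hRC _ hnxδ p hp) ?_
      (fun η hη hηR => htype _ _ hnxδ hd1 η hη hηR) (fun ζ hζ => hlow _ hnxδ ζ hζ)
    · intro ζ hζ
      rw [f_of_lt (show ζ.ht < γ from (C_le hζ).trans_lt hγ1)]
      simp only
      omega
    · intro ζ hζ hζR η hη hηR
      exact (hcrossht ζ hζ hζR η hη hηR).2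
  · refine amalgam (R := (R : Set (Pt I))) (a' := α (nx x)) (fun c => by rw [hCz c]; tauto) ?_
      (fun p hp => hRC _ hd1 p hp) ?_
      (fun η hη hηR => htype _ _ hd1 hnxδ η hη hηR) (fun ζ hζ => hlow _ hd1 ζ hζ)
    · intro ζ hζ
      rw [f_of_lt (show ζ.ht < γ from (C_le hζ).trans_lt hγ2)]
      simp only
      omega
    · intro ζ hζ hζR η hη hηR
      rw [f_comm]
      exact (hcrossht η hη hηR ζ hζ hζR).2

end Root

end Pool.Agent.H87CL
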