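import Mathlib
import Pool.Agent.H87CL.Root

set_option autoImplicit false
set_option linter.unusedSectionVars false

/-!
The topology generated by the subbasic clopen sets and its properties.
-/

namespace Pool.Agent.H87CL

open Cardinal Set Topology

section Space

variable {I : Type} [LinearOrder I] [WellFoundedLT I]

open Classical in
/-- the code of a point. -/
noncomputable def code (D : Setup I) (p : Pt I) : Nm I → Bool := fun U => decide (mem D U p)

/-- the topology on the raw points. -/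
@[reducible] noncomputable def ptTop (D : Setup I) : TopologicalSpace (Pt I) :=
  TopologicalSpace.induced (code D) inferInstance

variable {D : Setup I}

theorem isOpen_mem (U : Nm I) : IsOpen[ptTop D] {p | mem D U p} := by
  let _ := ptTop D
  have hc : Continuous (code D) := continuous_induced_dom
  have h1 : Continuous (fun p => code D p U) := (continuous_apply U).comp hc
  have h2 : {p | mem D U p} = (fun p => code D p U) ⁻¹' {true} := by
    ext p
    simp [code]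
  rw [h2]
  exact (isOpen_discrete ({true} : Set Bool)).preimage h1

theorem exists_finset_of_isOpen {O : Set (Pt I)} (hO : IsOpen[ptTop D] O) {p : Pt I} (hp : p ∈ O) :
    ∃ J : Finset (Nm I), ∀ q, (∀ U ∈ J, (mem D U q ↔ mem D U p)) → q ∈ O := by
  obtain ⟨V, hV, rfl⟩ := isOpen_induced_iff.1 hO
  rw [isOpen_pi_iff] at hV
  obtain ⟨J, u, hu, hJ⟩ := hV (code D p) hp
  refine ⟨J, fun q hq => hJ ?_⟩
  intro U hU
  have h1 : code D q U = code D p U := by
    simp only [code, decide_eq_decide]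
    exact hq U hU
  rw [h1]
  exact (hu U hU).2

theorem exists_arr_of_isOpen {O : Set (Pt I)} (hO : IsOpen[ptTop D] O) {p : Pt I} (hp : p ∈ O)
    (hpB : D.isB p.rl) : ∃ n, ∀ x : Pt I, D.isB x.rl → Arr D n p x → x ∈ O := by
  obtain ⟨J, hJ⟩ := exists_finset_of_isOpen hO hp
  refine ⟨J.sup (fun U => U.st.length + f D ⟨U.ht, U.lv, p.rl⟩ p), fun x hxB hx => hJ x ?_⟩
  intro U hU
  have h1 : U.st.length + f D ⟨U.ht, U.lv, p.rl⟩ p ≤
      J.sup (fun U => U.st.length + f D ⟨U.ht, U.lv, p.rl⟩ p) :=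
    Finset.le_sup (f := fun U => U.st.length + f D ⟨U.ht, U.lv, p.rl⟩ p) hU
  rw [mem_B hxB, mem_B hpB]
  constructor
  · intro h
    by_contra h'
    exact N_neg h' (by omega) hx h
  · intro h
    exact N_pos h (by omega) hx

theorem mem_same {U : Nm I} {β : I} (hU : U.ht = β) (n : ℕ) (x : Q) :
    mem D U ⟨β, n, x⟩ ↔ (U.lv = n ∧ pre x U.st.length = U.st) := by
  by_cases hx : D.isB x
  · rw [mem_B (p := ⟨β, n, x⟩) hx]
    constructor
    · rintro ⟨b, hb, hb', hb''⟩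
      rcases C_ht hb''.1 with h | h
      · simp only [Pt.mk.injEq] at h
        obtain ⟨h1, h2, h3⟩ := h
        subst h3
        exact ⟨h2, hb'⟩
      · simp only at h
        exact absurd h (by rw [hU]; exact lt_irrefl _)
    · rintro ⟨h1, h2⟩
      refine ⟨x, hx, h2, ?_⟩
      rw [hU, h1]
      exact Arr_refl _ _
  · rw [mem_nB (p := ⟨β, n, x⟩) hx]
    simp only [hU, lt_irrefl, false_and, false_or, true_and]

theorem mem_above {U : Nm I} {β : I} (hU : β < U.ht) (n : ℕ) (x : Q) :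
    ¬ mem D U ⟨β, n, x⟩ := by
  by_cases hx : D.isB x
  · rw [mem_B (p := ⟨β, n, x⟩) hx]
    rintro ⟨b, hb, hb', hb''⟩
    exact absurd (C_le hb''.1) (not_le.2 hU)
  · rw [mem_nB (p := ⟨β, n, x⟩) hx]
    rintro (⟨h1, -⟩ | ⟨h1, -, -⟩)
    · exact absurd h1 (not_lt.2 hU.le)
    · exact absurd h1 hU.ne'

theorem pre_of_le {x y : Q} {i j : ℕ} (hij : i ≤ j) (h : pre x j = pre y j) : pre x i = pre y i :=
  pre_eq_iff.2 fun k hk => pre_eq_iff.1 h k (by omega)

theorem layer_lindelof (β : I) (n : ℕ) : @IsLindelof _ (ptTop D) {p : Pt I | p.ht = β ∧ p.lv = n} := by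
  classical
  let _ := ptTop D
  refine isLindelof_of_countable_subcover fun {ι} U hU hcov => ?_
  have hi : ∀ x : Q, ∃ i, (⟨β, n, x⟩ : Pt I) ∈ U i := by
    intro x
    exact mem_iUnion.1 (hcov ⟨rfl, rfl⟩)
  choose i hi using hi
  let W : Q → Finset (Nm I) := fun x =>
    if D.isB x then (N_finite (D := D) ⟨β, n, x⟩).toFinset else D.W β x
  have hWB : ∀ x, D.isB x → ∀ U, U ∈ W x ↔ U.ht < β ∧ (⟨β, n, x⟩ : Pt I) ∈ N D U := by
    intro x hx U
    simp only [W, if_pos hx, Set.Finite.mem_toFinset]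
    rfl
  have hWnB : ∀ x, ¬ D.isB x → W x = D.W β x := fun x hx => if_neg hx
  have hmemW : ∀ (U : Nm I) (x : Q), U.ht < β → (mem D U ⟨β, n, x⟩ ↔ U ∈ W x) := by
    intro U x hU
    by_cases hx : D.isB x
    · rw [mem_B (p := ⟨β, n, x⟩) hx, hWB x hx]
      exact ⟨fun h => ⟨hU, h⟩, fun h => h.2⟩
    · rw [mem_nB (p := ⟨β, n, x⟩) hx, hWnB x hx]
      constructor
      · rintro (⟨-, h⟩ | ⟨h, -, -⟩)
        · exact h
        · exact absurd h hU.ne
      · intro h
        exact Or.inl ⟨hU, h⟩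
  obtain ⟨Dc, hDc, hDcov⟩ := lindelof_aux (T := {U : Nm I | U.ht < β}) W {x | D.isB x}
    (by
      intro x u hu
      by_cases hx : D.isB x
      · exact ((hWB x hx u).1 hu).1
      · rw [hWnB x hx] at hu
        exact D.hW β x u hu)
    (by
      intro E hE K hK hK'
      obtain ⟨x, hxK, hxB, hxE⟩ := D.hWs β E hE K hK hK'
      exact ⟨x, hxK, hxB, by rw [hWnB x hxB, hxE]⟩)
    (fun x => {x' | (⟨β, n, x'⟩ : Pt I) ∈ U (i x)}) (fun x => hi x)
    (by
      intro x hx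
      obtain ⟨J, hJ⟩ := exists_finset_of_isOpen (hU (i x)) (hi x)
      refine ⟨J, J.sup (fun u => u.st.length), fun x' hx' hpre => hJ _ fun u hu => ?_⟩
      rcases lt_trichotomy u.ht β with h | h | h
      · rw [hmemW u x' h, hmemW u x h]
        exact hx' u hu
      · rw [mem_same h, mem_same h]
        have h1 : u.st.length ≤ J.sup (fun u => u.st.length) :=
          Finset.le_sup (f := fun u : Nm I => u.st.length) hu
        rw [pre_of_le h1 hpre]
      · exact iff_of_false (mem_above h n x') (mem_above h n x))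
  refine ⟨i '' Dc, hDc.image i, ?_⟩
  rintro ⟨b, k, x⟩ ⟨hb, hk⟩
  simp only at hb hk
  subst hb hk
  obtain ⟨d, hd, hxd⟩ := hDcov x
  exact mem_iUnion₂.2 ⟨i d, mem_image_of_mem i hd, hxd⟩

theorem star (p : Pt I) : ∃ n0, ∀ U : Nm I, n0 ≤ U.st.length → mem D U p →
    U = ⟨p.ht, p.lv, pre p.rl U.st.length⟩ := by
  by_cases hp : D.isB p.rl
  · obtain ⟨n0, hn0⟩ := N_star (D := D) p
    exact ⟨n0, fun U hU h => hn0 U hU ((mem_B hp).1 h)⟩
  · refine ⟨(D.W p.ht p.rl).sup (fun U => U.st.length) + 1, fun U hU h => ?_⟩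
    rcases (mem_nB hp).1 h with ⟨-, h⟩ | ⟨h1, h2, h3⟩
    · have h' : U.st.length ≤ (D.W p.ht p.rl).sup (fun U => U.st.length) :=
        Finset.le_sup (f := fun U : Nm I => U.st.length) h
      omega
    · ext1
      exacts [h1, h2, h3.symm]

theorem final (D : Setup I) : ∃ (X : Type) (_ : TopologicalSpace X), RegularSpace X ∧
      (∀ 𝒰 : Set (Set X), (∀ U ∈ 𝒰, IsOpen U ∧ U.Nonempty) → 𝒰.PairwiseDisjoint id →
        ∃ L : Set X, IsLindelof L ∧ ∀ U ∈ 𝒰, (L ∩ U).Nonempty) ∧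
      (∃ 𝒰 : ℕ → Set (Set X),
        (∀ n, ∀ V ∈ 𝒰 n, IsOpen V) ∧ (∀ n, ⋃₀ 𝒰 n = Set.univ) ∧
        ∀ x y : X, x ≠ y → ∃ n, ¬ ∃ V ∈ 𝒰 n, ∃ W ∈ 𝒰 n, x ∈ V ∧ (V ∩ W).Nonempty ∧ y ∈ W) ∧
      #I ≤ #X := by
  classical
  let tP : TopologicalSpace (Pt I) := ptTop D
  let Γ : Set (Pt I) := {p | D.isB p.rl}
  have hΓ : ∀ p : Pt I, D.isB p.rl → p ∈ closure Γ := fun p hp => subset_closure hp
  let X : Type := {p : Pt I // p ∈ closure Γ}
  refine ⟨X, inferInstance, ?_, ?_, ?_, ?_⟩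
  · have : RegularSpace (Pt I) := regularSpace_induced (code D)
    exact Topology.IsInducing.subtypeVal.regularSpace
  · -- cellular-Lindelof
    intro 𝒰 h𝒰 hdisj
    have hsel : ∀ O : Set X, O ∈ 𝒰 → ∃ (a : Pt I) (n : ℕ), D.isB a.rl ∧
        ∀ (x : Pt I) (hx : D.isB x.rl), Arr D n a x → (⟨x, hΓ x hx⟩ : X) ∈ O := by
      intro O hO
      obtain ⟨hOo, y, hy⟩ := h𝒰 O hO
      obtain ⟨Õ, hÕ, rfl⟩ := isOpen_induced_iff.1 hOo
      obtain ⟨a, haÕ, haΓ⟩ := mem_closure_iff.1 y.2 Õ hÕ hy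
      obtain ⟨n, hn⟩ := exists_arr_of_isOpen hÕ haÕ haΓ
      exact ⟨a, n, haΓ, fun x hx hax => hn x hx hax⟩
    obtain ⟨i0, -⟩ := D.bdd Empty (fun e => e.elim) (by simp)
    have : Nonempty (Pt I) := ⟨⟨i0, 0, fun _ => false⟩⟩
    choose! α ν hαB hα using hsel
    have hbn : ∀ n : ℕ, ∃ b : I, ∀ O ∈ 𝒰, ν O = n → (α O).ht < b := by
      intro n
      by_contra hcon
      push Not at hcon
      obtain ⟨a, ⟨O, hO, hOn, rfl⟩, a', ⟨O', hO', hOn', rfl⟩, hne, z, hz, h1, h2⟩ :=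
        compat (D := D) {a | ∃ O ∈ 𝒰, ν O = n ∧ α O = a}
        (by
          rintro a ⟨O, hO, -, rfl⟩
          exact hαB O hO)
        (by
          intro d
          obtain ⟨O, hO, hOn, hd⟩ := hcon d
          exact ⟨α O, ⟨O, hO, hOn, rfl⟩, hd⟩) n
      have hOO' : O ≠ O' := fun h => hne (by rw [h])
      have hz1 : (⟨z, hΓ z hz⟩ : X) ∈ O := hα O hO z hz (by rw [hOn]; exact h1)
      have hz2 : (⟨z, hΓ z hz⟩ : X) ∈ O' := hα O' hO' z hz (by rw [hOn']; exact h2)
      exact Set.disjoint_left.1 (hdisj hO hO' hOO') hz1 hz2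
    choose b hb using hbn
    obtain ⟨β, hβ⟩ := D.bdd ℕ b (by simpa using aleph0_le_continuum)
    refine ⟨(fun x : X => x.1) ⁻¹' (⋃ n : ℕ, {p : Pt I | p.ht = β ∧ p.lv = n}), ?_, ?_⟩
    · have h1 : IsLindelof (⋃ n : ℕ, {p : Pt I | p.ht = β ∧ p.lv = n}) :=
        isLindelof_iUnion fun n => layer_lindelof β n
      exact (isClosed_closure (s := Γ)).isClosedEmbedding_subtypeVal.isLindelof_preimage h1
    · intro O hO
      obtain ⟨x, hx, hax⟩ := catch_pt (hαB O hO) ((hb _ O hO rfl).trans (hβ _)) (ν O)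
      exact ⟨⟨_, hΓ _ hx⟩, mem_iUnion.2 ⟨ν O, rfl, rfl⟩, hα O hO _ hx hax⟩
  · -- rank 2
    refine ⟨fun n => {V : Set X | ∃ U : Nm I, U.st.length = n ∧ V = {x : X | mem D U x.1}},
      ?_, ?_, ?_⟩
    · rintro n V ⟨U, -, rfl⟩
      exact (isOpen_mem (D := D) U).preimage continuous_subtype_val
    · intro n
      rw [sUnion_eq_univ_iff]
      intro x
      refine ⟨_, ⟨⟨x.1.ht, x.1.lv, pre x.1.rl n⟩, length_pre _ _, rfl⟩, ?_⟩
      show mem D _ x.1
      have : x.1 = ⟨x.1.ht, x.1.lv, x.1.rl⟩ := rfl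
      rw [this, mem_same rfl]
      simp
    · intro x y hxy
      have hxy' : x.1 ≠ y.1 := fun h => hxy (Subtype.ext h)
      obtain ⟨n1, hn1⟩ := star (D := D) x.1
      obtain ⟨n2, hn2⟩ := star (D := D) y.1
      obtain ⟨n3, hn3⟩ : ∃ n3, ∀ m, n3 ≤ m → x.1.rl ≠ y.1.rl → pre x.1.rl m ≠ pre y.1.rl m := by
        by_cases h : x.1.rl = y.1.rl
        · exact ⟨0, fun m _ h' => absurd h h'⟩
        · obtain ⟨n3, hn3⟩ := exists_pre_ne h
          exact ⟨n3, fun m hm _ => hn3 m hm⟩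
      refine ⟨n1 + n2 + n3 + f D x.1 y.1, ?_⟩
      rintro ⟨V, ⟨U, hU, rfl⟩, V', ⟨U', hU', rfl⟩, hxV, ⟨z, hzV, hzV'⟩, hyV'⟩
      have e1 := hn1 U (by omega) hxV
      have e2 := hn2 U' (by omega) hyV'
      have ho : IsOpen ({p : Pt I | mem D U p} ∩ {p | mem D U' p}) :=
        IsOpen.inter (isOpen_mem (D := D) U) (isOpen_mem (D := D) U')
      obtain ⟨w, ⟨hw1, hw2⟩, hwΓ⟩ := mem_closure_iff.1 z.2 _ ho ⟨hzV, hzV'⟩
      have hwB : D.isB w.rl := hwΓ
      obtain ⟨b, hb, hb', hb''⟩ := (mem_B hwB).1 hw1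
      obtain ⟨c, hc, hc', hc''⟩ := (mem_B hwB).1 hw2
      have h1 : U.ht = x.1.ht := congrArg Nm.ht e1
      have h2 : U.lv = x.1.lv := congrArg Nm.lv e1
      have h3 : U.st = pre x.1.rl U.st.length := congrArg Nm.st e1
      have h1' : U'.ht = y.1.ht := congrArg Nm.ht e2
      have h2' : U'.lv = y.1.lv := congrArg Nm.lv e2
      have h3' : U'.st = pre y.1.rl U'.st.length := congrArg Nm.st e2
      have hlen : U.st.length = U'.st.length := by rw [hU, hU']
      have hne : (⟨U.ht, U.lv, b⟩ : Pt I) ≠ ⟨U'.ht, U'.lv, c⟩ := by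
        intro h
        simp only [Pt.mk.injEq] at h
        obtain ⟨g1, g2, g3⟩ := h
        subst g3
        have hrl : x.1.rl ≠ y.1.rl := by
          intro h
          apply hxy'
          ext1
          · rw [← h1, ← h1', g1]
          · rw [← h2, ← h2', g2]
          · exact h
        refine hn3 U.st.length (by omega) hrl ?_
        calc pre x.1.rl U.st.length = U.st := h3.symm
          _ = pre b U.st.length := hb'.symm
          _ = pre b U'.st.length := by rw [hlen]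
          _ = U'.st := hc'
          _ = pre y.1.rl U'.st.length := h3'
          _ = pre y.1.rl U.st.length := by rw [hlen]
      rw [← hlen] at hc''
      have h4 := sep hb'' hc'' hne
      have h5 : f D (⟨U.ht, U.lv, b⟩ : Pt I) ⟨U'.ht, U'.lv, c⟩ = f D x.1 y.1 :=
        f_congr h1 h2 h1' h2'
      omega
  · obtain ⟨i0, -⟩ := D.bdd Empty (fun e => e.elim) (by simp)
    obtain ⟨b0, hb0, -⟩ := D.hSs i0 ∅ (by simp)
    refine mk_le_of_injective (f := fun i : I => (⟨⟨i, 0, b0⟩, hΓ _ hb0⟩ : X)) ?_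
    intro i j hij
    have := congrArg (fun x : X => x.1.ht) hij
    simpa using this

end Space

end Pool.Agent.H87CL
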