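import Mathlib
import Pool.Agent.H87CL.Space

set_option autoImplicit false
set_option linter.unusedSectionVars false

/-!
Construction of the data on the first ordinal of cardinality the successor of the continuum.
-/

namespace Pool.Agent.H87CL

open Cardinal Set

theorem mk_nm_lt {I : Type} [LinearOrder I] (hIio : ∀ b : I, #(Iio b) ≤ 𝔠) (δ : I) :
    #{U : Nm I // U.ht < δ} ≤ 𝔠 := by
  have h1 : #{U : Nm I // U.ht < δ} ≤ #(Iio δ × ℕ × List Bool) :=
    mk_le_of_injective (f := fun p => (⟨p.1.ht, p.2⟩, p.1.lv, p.1.st)) (by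
      intro p q h
      simp only [Prod.mk.injEq] at h
      apply Subtype.ext
      ext1
      exacts [congrArg Subtype.val h.1, h.2.1, h.2.2])
  refine h1.trans ?_
  rw [mk_prod, mk_prod]
  simp only [lift_id, mk_nat]
  refine (mul_le_mul' (hIio δ) (mul_le_mul' aleph0_le_continuum
    (mk_le_aleph0.trans aleph0_le_continuum))).trans ?_
  rw [mul_eq_self aleph0_le_continuum, mul_eq_self aleph0_le_continuum]

/-- a map from the Cantor space onto a small set of finite sets. -/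
theorem exists_onto_finset {A : Type} (P : A → Prop) (h : #{a : A // P a} ≤ 𝔠) :
    ∃ s : Q → Finset A, (∀ q, ∀ a ∈ s q, P a) ∧ ∀ F : Finset A, (∀ a ∈ F, P a) → ∃ q, s q = F := by
  classical
  have h1 : #(Finset {a : A // P a}) ≤ #Q := by
    rw [mk_Q]
    exact mk_finset_le_c h
  obtain ⟨e⟩ := Cardinal.le_def _ _ |>.1 h1
  refine ⟨fun q => (Function.invFun e q).map (Function.Embedding.subtype _), ?_, ?_⟩
  · intro q a ha
    simp only [Finset.mem_map, Function.Embedding.subtype_apply] at ha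
    obtain ⟨b, -, rfl⟩ := ha
    exact b.2
  · intro F hF
    refine ⟨e (F.subtype P), ?_⟩
    simp only [Function.leftInverse_invFun e.injective (F.subtype P)]
    rw [Finset.subtype_map]
    exact Finset.filter_true_of_mem hF

theorem exists_setup {I : Type} [LinearOrder I] [WellFoundedLT I]
    (hIio : ∀ b : I, #(Iio b) ≤ 𝔠)
    (hb : ∀ (κ : Type) (f : κ → I), #κ ≤ 𝔠 → ∃ b, ∀ k, f k < b) : Nonempty (Setup I) := by
  classical
  -- injections
  have hinj : ∀ b : I, ∃ j : I → Ordinal.{0}, InjOn j (Iio b) ∧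
      ∀ x, x < b → j x < (𝔠 : Cardinal.{0}).ord := by
    intro b
    have h1 : #(Iio b) ≤ #(𝔠 : Cardinal.{0}).ord.ToType := by
      rw [mk_toType, card_ord]
      exact hIio b
    obtain ⟨e⟩ := Cardinal.le_def _ _ |>.1 h1
    refine ⟨fun x => if h : x < b then (Ordinal.ToType.mk.symm (e ⟨x, h⟩)).1 else 0, ?_, ?_⟩
    · intro x hx y hy hxy
      have hx' : x < b := hx
      have hy' : y < b := hy
      simp only [dif_pos hx', dif_pos hy'] at hxy
      have h2 := Ordinal.ToType.mk.symm.injective (Subtype.ext hxy)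
      exact congrArg Subtype.val (e.injective h2)
    · intro x hx
      simp only [dif_pos hx]
      exact (Ordinal.ToType.mk.symm (e ⟨x, hx⟩)).2
  choose j hj hj' using hinj
  have hT : #(Bool × Q) ≤ 𝔠 := by
    rw [mk_prod, lift_id, lift_id, mk_Q]
    refine (mul_le_mul' (c := 𝔠) (d := 𝔠) ?_ le_rfl).trans
      (by rw [mul_eq_self aleph0_le_continuum])
    simpa using (nat_lt_continuum 2).le
  obtain ⟨ι, hι⟩ := bernstein (Bool × Q) hT
  have huniv : ¬ (univ : Set Q).Countable := by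
    intro h
    rw [← le_aleph0_iff_set_countable, mk_univ, mk_Q] at h
    exact absurd h (not_le.2 aleph0_lt_continuum)
  let isB : Q → Prop := fun x => (ι x).1 = true
  have hs : ∀ b : I, ∃ s : Q → Finset (Pt I), (∀ q, ∀ a ∈ s q, a.ht < b ∧ isB a.rl) ∧
      ∀ F : Finset (Pt I), (∀ a ∈ F, a.ht < b ∧ isB a.rl) → ∃ q, s q = F := fun b =>
    exists_onto_finset (fun p : Pt I => p.ht < b ∧ isB p.rl)
      (mk_pt_lt hIio (fun p => isB p.rl) b)
  choose s hs1 hs2 using hs
  have hw : ∀ b : I, ∃ s : Q → Finset (Nm I), (∀ q, ∀ a ∈ s q, a.ht < b) ∧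
      ∀ F : Finset (Nm I), (∀ a ∈ F, a.ht < b) → ∃ q, s q = F := fun b =>
    exists_onto_finset (fun p : Nm I => p.ht < b) (mk_nm_lt hIio b)
  choose w hw1 hw2 using hw
  refine ⟨{
    g := fun b x => sInf {n | x ∈ Reach j n b}
    S := fun b x => s b (ι x).2
    isB := isB
    W := fun b x => w b (ι x).2
    hS := fun b x p hp => hs1 b _ p hp
    hSs := ?_
    hW := fun b x U hU => hw1 b _ U hU
    hWs := ?_
    SU := ?_
    bdd := hb
    hIio := hIio }⟩
  · intro b F hF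
    obtain ⟨q, hq⟩ := hs2 b F hF
    obtain ⟨x, -, hx⟩ := hι (true, q) univ isClosed_univ huniv
    refine ⟨x, ?_, ?_⟩
    · simp [isB, hx]
    · simp only [hx, hq]
  · intro b E hE K hK hK'
    obtain ⟨q, hq⟩ := hw2 b E hE
    obtain ⟨x, hxK, hx⟩ := hι (false, q) K hK hK'
    refine ⟨x, hxK, ?_, ?_⟩
    · simp [isB, hx]
    · simp only [hx, hq]
  · intro n m M
    obtain ⟨d, hd⟩ := strong_unbounded hj hj' hb n m M
    refine ⟨d, fun β hβ => ?_⟩
    obtain ⟨x, hx, hx'⟩ := hd β hβ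
    refine ⟨x, hx, fun y hy hy' i => ?_⟩
    have h1 : y < β i := (hy'.trans_lt hx).trans_le (hβ i)
    obtain ⟨k, hk⟩ := exists_Reach j h1
    by_contra hcon
    have h2 : y ∈ Reach j (sInf {n | y ∈ Reach j n (β i)}) (β i) :=
      Nat.sInf_mem (s := {n | y ∈ Reach j n (β i)}) ⟨k, hk⟩
    exact hx' y hy hy' i (Reach_mono (not_lt.1 hcon) h2)

theorem counterexample : ∃ (X : Type) (_ : TopologicalSpace X), RegularSpace X ∧
      (∀ 𝒰 : Set (Set X), (∀ U ∈ 𝒰, IsOpen U ∧ U.Nonempty) → 𝒰.PairwiseDisjoint id →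
        ∃ L : Set X, IsLindelof L ∧ ∀ U ∈ 𝒰, (L ∩ U).Nonempty) ∧
      (∃ 𝒰 : ℕ → Set (Set X),
        (∀ n, ∀ V ∈ 𝒰 n, IsOpen V) ∧ (∀ n, ⋃₀ 𝒰 n = Set.univ) ∧
        ∀ x y : X, x ≠ y → ∃ n, ¬ ∃ V ∈ 𝒰 n, ∃ W ∈ 𝒰 n, x ∈ V ∧ (V ∩ W).Nonempty ∧ y ∈ W) ∧
      𝔠 < #X := by
  let I : Type := (Order.succ (𝔠 : Cardinal.{0})).ord.ToType
  have hI : #I = Order.succ 𝔠 := by
    show #(Order.succ (𝔠 : Cardinal.{0})).ord.ToType = _
    rw [mk_toType, card_ord]
  have hord : (#I).ord = Ordinal.type (fun a b : I => a < b) := by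
    rw [hI]
    exact (Ordinal.type_toType _).symm
  have hIio : ∀ b : I, #(Iio b) ≤ 𝔠 := fun b => by
    have h := mk_Iio_lt b hord
    rw [hI] at h
    exact Order.lt_succ_iff.1 h
  have hIic : ∀ b : I, #(Iic b) ≤ 𝔠 := fun b => by
    have : Iic b = insert b (Iio b) := by
      ext x
      simp [le_iff_lt_or_eq, or_comm]
    rw [this]
    refine (mk_insert_le).trans ?_
    exact (add_le_add (hIio b) (by simpa using (nat_lt_continuum 1).le)).trans
      (by rw [add_eq_self aleph0_le_continuum])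
  have hb : ∀ (κ : Type) (f : κ → I), #κ ≤ 𝔠 → ∃ b, ∀ k, f k < b := by
    intro κ f hκ
    by_contra hcon
    push Not at hcon
    have h1 : (univ : Set I) ⊆ ⋃ k, Iic (f k) := fun b _ => by
      obtain ⟨k, hk⟩ := hcon b
      exact mem_iUnion.2 ⟨k, hk⟩
    have h2 : #I ≤ 𝔠 := by
      rw [← mk_univ]
      refine (mk_le_mk_of_subset h1).trans ((mk_iUnion_le_sum_mk).trans ?_)
      refine (sum_le_sum _ (fun _ => 𝔠) (fun k => hIic (f k))).trans ?_
      rw [sum_const, lift_id, lift_id]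
      exact (mul_le_mul' hκ le_rfl).trans (by rw [mul_eq_self aleph0_le_continuum])
    rw [hI] at h2
    exact absurd h2 (not_le.2 (Order.lt_succ _))
  obtain ⟨D⟩ := exists_setup hIio hb
  obtain ⟨X, tX, h1, h2, h3, h4⟩ := final D
  refine ⟨X, tX, h1, h2, h3, ?_⟩
  rw [hI] at h4
  exact (Order.lt_succ _).trans_le h4

end Pool.Agent.H87CL
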