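import Mathlib
import Pool.Agent.H87CL.Build

set_option autoImplicit false
set_option linter.unusedSectionVars false

/-!
The counterexample once more, with zero-dimensionality, the exact cardinality and the
transfer to all universes.
-/

namespace Pool.Agent.H87CL

open Cardinal Set Topology

theorem induced_clopen {Y K : Type} [TopologicalSpace Y] [TopologicalSpace K] [CompactSpace K]
    [T2Space K] [TotallyDisconnectedSpace K] {e : Y → K} (he : IsInducing e) {O : Set Y}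
    (hO : IsOpen O) {x : Y} (hx : x ∈ O) : ∃ V : Set Y, IsClopen V ∧ x ∈ V ∧ V ⊆ O := by
  obtain ⟨P, hP, rfl⟩ := he.isOpen_iff.1 hO
  obtain ⟨V, hV, hxV, hVP⟩ := compact_exists_isClopen_in_isOpen hP hx
  exact ⟨e ⁻¹' V, hV.preimage he.continuous, hxV, preimage_mono hVP⟩

section Space

variable {I : Type} [LinearOrder I] [WellFoundedLT I]

theorem final2 (D : Setup I) : ∃ (X : Type) (_ : TopologicalSpace X),
      (∃ (K : Type) (_ : TopologicalSpace K) (_ : CompactSpace K) (_ : T2Space K)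
        (_ : TotallyDisconnectedSpace K) (e : X → K), IsInducing e) ∧
      (∀ 𝒰 : Set (Set X), (∀ U ∈ 𝒰, IsOpen U ∧ U.Nonempty) → 𝒰.PairwiseDisjoint id →
        ∃ L : Set X, IsLindelof L ∧ ∀ U ∈ 𝒰, (L ∩ U).Nonempty) ∧
      (∃ 𝒰 : ℕ → Set (Set X),
        (∀ n, ∀ V ∈ 𝒰 n, IsOpen V) ∧ (∀ n, ⋃₀ 𝒰 n = Set.univ) ∧
        ∀ x y : X, x ≠ y → ∃ n, ¬ ∃ V ∈ 𝒰 n, ∃ W ∈ 𝒰 n, x ∈ V ∧ (V ∩ W).Nonempty ∧ y ∈ W) ∧
      #I ≤ #X ∧ #X ≤ #(Pt I) := by
  classical
  let tP : TopologicalSpace (Pt I) := ptTop D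
  let Γ : Set (Pt I) := {p | D.isB p.rl}
  have hΓ : ∀ p : Pt I, D.isB p.rl → p ∈ closure Γ := fun p hp => subset_closure hp
  let X : Type := {p : Pt I // p ∈ closure Γ}
  refine ⟨X, inferInstance, ?_, ?_, ?_, ?_, mk_subtype_le _⟩
  · have h1 : IsInducing (code D) := ⟨rfl⟩
    exact ⟨Nm I → Bool, inferInstance, inferInstance, inferInstance, inferInstance,
      fun x => code D x.1, h1.comp IsInducing.subtypeVal⟩
  · -- cellular-Lindelof
    intro 𝒰 h𝒰 hdisj
    have hsel : ∀ O : Set X, O ∈ 𝒰 → ∃ (a : Pt I) (n : ℕ), D.isB a.rl ∧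
        ∀ (x : Pt I) (hx : D.isB x.rl), Arr D n a x → (⟨x, hΓ x hx⟩ : X) ∈ O := by
      intro O hO
      obtain ⟨hOo, y, hy⟩ := h𝒰 O hO
      obtain ⟨Õ, hÕ, rfl⟩ := isOpen_induced_iff.1 hOo
      obtain ⟨a, haÕ, haΓ⟩ := mem_closure_iff.1 y.2 Õ hÕ hy
      obtain ⟨n, hn⟩ := exists_arr_of_isOpen hÕ haÕ haΓ
      exact ⟨a, n, haΓ, fun x hx hax => hn x hx hax⟩
    obtain ⟨i0, -⟩ := D.bdd Empty (fun e => e.elim) (by simp)
    have : Nonempty (Pt I) := ⟨⟨i0, 0, fun _ => false⟩⟩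
    choose! α ν hαB hα using hsel
    have hbn : ∀ n : ℕ, ∃ b : I, ∀ O ∈ 𝒰, ν O = n → (α O).ht < b := by
      intro n
      by_contra hcon
      push Not at hcon
      obtain ⟨a, ⟨O, hO, hOn, rfl⟩, a', ⟨O', hO', hOn', rfl⟩, hne, z, hz, h1, h2⟩ :=
        compat (D := D) {a | ∃ O ∈ 𝒰, ν O = n ∧ α O = a}
        (by
          rintro a ⟨O, hO, -, rfl⟩
          exact hαB O hO)
        (by
          intro d
          obtain ⟨O, hO, hOn, hd⟩ := hcon d
          exact ⟨α O, ⟨O, hO, hOn, rfl⟩, hd⟩) n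
      have hOO' : O ≠ O' := fun h => hne (by rw [h])
      have hz1 : (⟨z, hΓ z hz⟩ : X) ∈ O := hα O hO z hz (by rw [hOn]; exact h1)
      have hz2 : (⟨z, hΓ z hz⟩ : X) ∈ O' := hα O' hO' z hz (by rw [hOn']; exact h2)
      exact Set.disjoint_left.1 (hdisj hO hO' hOO') hz1 hz2
    choose b hb using hbn
    obtain ⟨β, hβ⟩ := D.bdd ℕ b (by simpa using aleph0_le_continuum)
    refine ⟨(fun x : X => x.1) ⁻¹' (⋃ n : ℕ, {p : Pt I | p.ht = β ∧ p.lv = n}), ?_, ?_⟩
    · have h1 : IsLindelof (⋃ n : ℕ, {p : Pt I | p.ht = β ∧ p.lv = n}) :=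
        isLindelof_iUnion fun n => layer_lindelof β n
      exact (isClosed_closure (s := Γ)).isClosedEmbedding_subtypeVal.isLindelof_preimage h1
    · intro O hO
      obtain ⟨x, hx, hax⟩ := catch_pt (hαB O hO) ((hb _ O hO rfl).trans (hβ _)) (ν O)
      exact ⟨⟨_, hΓ _ hx⟩, mem_iUnion.2 ⟨ν O, rfl, rfl⟩, hα O hO _ hx hax⟩
  · -- rank 2
    refine ⟨fun n => {V : Set X | ∃ U : Nm I, U.st.length = n ∧ V = {x : X | mem D U x.1}},
      ?_, ?_, ?_⟩
    · rintro n V ⟨U, -, rfl⟩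
      exact (isOpen_mem (D := D) U).preimage continuous_subtype_val
    · intro n
      rw [sUnion_eq_univ_iff]
      intro x
      refine ⟨_, ⟨⟨x.1.ht, x.1.lv, pre x.1.rl n⟩, length_pre _ _, rfl⟩, ?_⟩
      show mem D _ x.1
      have : x.1 = ⟨x.1.ht, x.1.lv, x.1.rl⟩ := rfl
      rw [this, mem_same rfl]
      simp
    · intro x y hxy
      have hxy' : x.1 ≠ y.1 := fun h => hxy (Subtype.ext h)
      obtain ⟨n1, hn1⟩ := star (D := D) x.1
      obtain ⟨n2, hn2⟩ := star (D := D) y.1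
      obtain ⟨n3, hn3⟩ : ∃ n3, ∀ m, n3 ≤ m → x.1.rl ≠ y.1.rl → pre x.1.rl m ≠ pre y.1.rl m := by
        by_cases h : x.1.rl = y.1.rl
        · exact ⟨0, fun m _ h' => absurd h h'⟩
        · obtain ⟨n3, hn3⟩ := exists_pre_ne h
          exact ⟨n3, fun m hm _ => hn3 m hm⟩
      refine ⟨n1 + n2 + n3 + f D x.1 y.1, ?_⟩
      rintro ⟨V, ⟨U, hU, rfl⟩, V', ⟨U', hU', rfl⟩, hxV, ⟨z, hzV, hzV'⟩, hyV'⟩
      have e1 := hn1 U (by omega) hxV
      have e2 := hn2 U' (by omega) hyV'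
      have ho : IsOpen ({p : Pt I | mem D U p} ∩ {p | mem D U' p}) :=
        IsOpen.inter (isOpen_mem (D := D) U) (isOpen_mem (D := D) U')
      obtain ⟨w, ⟨hw1, hw2⟩, hwΓ⟩ := mem_closure_iff.1 z.2 _ ho ⟨hzV, hzV'⟩
      have hwB : D.isB w.rl := hwΓ
      obtain ⟨b, hb, hb', hb''⟩ := (mem_B hwB).1 hw1
      obtain ⟨c, hc, hc', hc''⟩ := (mem_B hwB).1 hw2
      have h1 : U.ht = x.1.ht := congrArg Nm.ht e1
      have h2 : U.lv = x.1.lv := congrArg Nm.lv e1
      have h3 : U.st = pre x.1.rl U.st.length := congrArg Nm.st e1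
      have h1' : U'.ht = y.1.ht := congrArg Nm.ht e2
      have h2' : U'.lv = y.1.lv := congrArg Nm.lv e2
      have h3' : U'.st = pre y.1.rl U'.st.length := congrArg Nm.st e2
      have hlen : U.st.length = U'.st.length := by rw [hU, hU']
      have hne : (⟨U.ht, U.lv, b⟩ : Pt I) ≠ ⟨U'.ht, U'.lv, c⟩ := by
        intro h
        simp only [Pt.mk.injEq] at h
        obtain ⟨g1, g2, g3⟩ := h
        subst g3
        have hrl : x.1.rl ≠ y.1.rl := by
          intro h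
          apply hxy'
          ext1
          · rw [← h1, ← h1', g1]
          · rw [← h2, ← h2', g2]
          · exact h
        refine hn3 U.st.length (by omega) hrl ?_
        calc pre x.1.rl U.st.length = U.st := h3.symm
          _ = pre b U.st.length := hb'.symm
          _ = pre b U'.st.length := by rw [hlen]
          _ = U'.st := hc'
          _ = pre y.1.rl U'.st.length := h3'
          _ = pre y.1.rl U.st.length := by rw [hlen]
      rw [← hlen] at hc''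
      have h4 := sep hb'' hc'' hne
      have h5 : f D (⟨U.ht, U.lv, b⟩ : Pt I) ⟨U'.ht, U'.lv, c⟩ = f D x.1 y.1 :=
        f_congr h1 h2 h1' h2'
      omega
  · obtain ⟨i0, -⟩ := D.bdd Empty (fun e => e.elim) (by simp)
    obtain ⟨b0, hb0, -⟩ := D.hSs i0 ∅ (by simp)
    refine mk_le_of_injective (f := fun i : I => (⟨⟨i, 0, b0⟩, hΓ _ hb0⟩ : X)) ?_
    intro i j hij
    have := congrArg (fun x : X => x.1.ht) hij
    simpa using this

end Space

theorem counterexample2 : ∃ (X : Type) (_ : TopologicalSpace X),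
      (∃ (K : Type) (_ : TopologicalSpace K) (_ : CompactSpace K) (_ : T2Space K)
        (_ : TotallyDisconnectedSpace K) (e : X → K), IsInducing e) ∧
      (∀ 𝒰 : Set (Set X), (∀ U ∈ 𝒰, IsOpen U ∧ U.Nonempty) → 𝒰.PairwiseDisjoint id →
        ∃ L : Set X, IsLindelof L ∧ ∀ U ∈ 𝒰, (L ∩ U).Nonempty) ∧
      (∃ 𝒰 : ℕ → Set (Set X),
        (∀ n, ∀ V ∈ 𝒰 n, IsOpen V) ∧ (∀ n, ⋃₀ 𝒰 n = Set.univ) ∧
        ∀ x y : X, x ≠ y → ∃ n, ¬ ∃ V ∈ 𝒰 n, ∃ W ∈ 𝒰 n, x ∈ V ∧ (V ∩ W).Nonempty ∧ y ∈ W) ∧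
      #X = Order.succ 𝔠 := by
  let I : Type := (Order.succ (𝔠 : Cardinal.{0})).ord.ToType
  have hI : #I = Order.succ 𝔠 := by
    show #(Order.succ (𝔠 : Cardinal.{0})).ord.ToType = _
    rw [mk_toType, card_ord]
  have hord : (#I).ord = Ordinal.type (fun a b : I => a < b) := by
    rw [hI]
    exact (Ordinal.type_toType _).symm
  have hIio : ∀ b : I, #(Iio b) ≤ 𝔠 := fun b => by
    have h := mk_Iio_lt b hord
    rw [hI] at h
    exact Order.lt_succ_iff.1 h
  have hIic : ∀ b : I, #(Iic b) ≤ 𝔠 := fun b => by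
    have : Iic b = insert b (Iio b) := by
      ext x
      simp [le_iff_lt_or_eq, or_comm]
    rw [this]
    refine (mk_insert_le).trans ?_
    exact (add_le_add (hIio b) (by simpa using (nat_lt_continuum 1).le)).trans
      (by rw [add_eq_self aleph0_le_continuum])
  have hb : ∀ (κ : Type) (f : κ → I), #κ ≤ 𝔠 → ∃ b, ∀ k, f k < b := by
    intro κ f hκ
    by_contra hcon
    push Not at hcon
    have h1 : (univ : Set I) ⊆ ⋃ k, Iic (f k) := fun b _ => by
      obtain ⟨k, hk⟩ := hcon b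
      exact mem_iUnion.2 ⟨k, hk⟩
    have h2 : #I ≤ 𝔠 := by
      rw [← mk_univ]
      refine (mk_le_mk_of_subset h1).trans ((mk_iUnion_le_sum_mk).trans ?_)
      refine (sum_le_sum _ (fun _ => 𝔠) (fun k => hIic (f k))).trans ?_
      rw [sum_const, lift_id, lift_id]
      exact (mul_le_mul' hκ le_rfl).trans (by rw [mul_eq_self aleph0_le_continuum])
    rw [hI] at h2
    exact absurd h2 (not_le.2 (Order.lt_succ _))
  obtain ⟨D⟩ := exists_setup hIio hb
  obtain ⟨X, tX, h1, h2, h3, h4, h5⟩ := final2 D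
  refine ⟨X, tX, h1, h2, h3, le_antisymm (h5.trans ?_) ?_⟩
  · have h6 : #(Pt I) ≤ #(I × ℕ × Q) :=
      mk_le_of_injective (f := fun p => (p.ht, p.lv, p.rl)) (by
        intro p q h
        simp only [Prod.mk.injEq] at h
        ext1
        exacts [h.1, h.2.1, h.2.2])
    refine h6.trans ?_
    have hc : 𝔠 ≤ Order.succ 𝔠 := (Order.lt_succ _).le
    rw [mk_prod, mk_prod]
    simp only [lift_id, mk_Q, mk_nat]
    rw [hI]
    refine (mul_le_mul' le_rfl (mul_le_mul' aleph0_le_continuum le_rfl)).trans ?_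
    rw [mul_eq_self aleph0_le_continuum]
    refine (mul_le_mul' le_rfl hc).trans ?_
    rw [mul_eq_self (aleph0_le_continuum.trans hc)]
  · rw [hI] at h4
    exact h4

end Pool.Agent.H87CL
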